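import Mathlib

/-!
Linear extensions of a finite set with a relation, counted by removing maximal elements.
-/

set_option autoImplicit false
set_option linter.unusedSectionVars false

namespace Pool.Agent.P8H42.Trunc

open Finset

section
variable {α : Type*} [DecidableEq α] (r : α → α → Prop)

/-- elements of `S` without successor in `S` -/
noncomputable def mx (S : Finset α) : Finset α := by
  classical exact S.filter fun x => ∀ y ∈ S, ¬ r x y

/-- elements of `S` without predecessor in `S` -/
noncomputable def mn (S : Finset α) : Finset α := by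
  classical exact S.filter fun x => ∀ y ∈ S, ¬ r y x

theorem mem_mx {S : Finset α} {x : α} : x ∈ mx r S ↔ x ∈ S ∧ ∀ y ∈ S, ¬ r x y := by
  classical simp [mx]

theorem mem_mn {S : Finset α} {x : α} : x ∈ mn r S ↔ x ∈ S ∧ ∀ y ∈ S, ¬ r y x := by
  classical simp [mn]

/-- the count, by fuel -/
noncomputable def eAux : ℕ → Finset α → ℕ
  | 0, _ => 1
  | k + 1, S => ∑ x ∈ mx r S, eAux k (S.erase x)

/-- the number of linear extensions -/
noncomputable def e (S : Finset α) : ℕ := eAux r S.card S

theorem e_empty : e r (∅ : Finset α) = 1 := by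
  simp [e, eAux]

theorem e_max {S : Finset α} (hS : S.Nonempty) : e r S = ∑ x ∈ mx r S, e r (S.erase x) := by
  obtain ⟨k, hk⟩ : ∃ k, S.card = k + 1 := ⟨S.card - 1, by have := hS.card_pos; omega⟩
  unfold e
  rw [hk, eAux]
  refine sum_congr rfl fun x hx => ?_
  rw [card_erase_of_mem ((mem_mx r).1 hx).1, hk, Nat.add_sub_cancel]

/-- lower subsets, one step at a time -/
def Low (S L : Finset α) : Prop := ∀ x ∈ L, ∀ y ∈ S, r y x → y ∈ L

/-- the set of the possible sets of cells that come before `c` -/
noncomputable def piv (S : Finset α) (c : α) : Finset (Finset α) := by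
  classical exact (S.erase c).powerset.filter fun L => Low r S L ∧ Low r S (insert c L)

theorem mem_piv {S L : Finset α} {c : α} :
    L ∈ piv r S c ↔ L ⊆ S.erase c ∧ Low r S L ∧ Low r S (insert c L) := by
  classical simp [piv]

/-- **The pivot lemma.** -/
theorem pivot (hr : ∀ x, ¬ r x x) (S : Finset α) (c : α) (hc : c ∈ S) :
    e r S = ∑ L ∈ piv r S c, e r L * e r ((S.erase c) \ L) := by
  classical
  induction hn : S.card using Nat.strong_induction_on generalizing S with
  | _ n ih =>
  subst hn
  have key : ∀ x L, (x ∈ (mx r S).erase c ∧ L ∈ piv r (S.erase x) c) ↔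
      (L ∈ (piv r S c).filter (fun L => ((S.erase c) \ L).Nonempty) ∧
        x ∈ mx r ((S.erase c) \ L)) := by
    intro x L
    simp only [mem_erase, mem_mx, mem_piv, mem_filter, mem_sdiff]
    constructor
    · rintro ⟨⟨hxc, hxS, hxm⟩, hL, h1, h2⟩
      have hxL : x ∉ L := fun h => by
        have := hL h
        simp at this
      have hLS : L ⊆ S.erase c := fun y hy => by
        have := hL hy
        simp only [mem_erase] at this ⊢
        exact ⟨this.1, this.2.2⟩
      refine ⟨⟨⟨hLS, ?_, ?_⟩, ⟨x, by simp [hxc, hxS, hxL]⟩⟩, ⟨⟨hxc, hxS⟩, hxL⟩, ?_⟩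
      · intro y hy z hz hzy
        by_cases hzx : z = x
        · subst hzx
          exact absurd hzy (hxm y (mem_of_mem_erase (hLS hy)))
        · exact h1 y hy z (mem_erase.2 ⟨hzx, hz⟩) hzy
      · intro y hy z hz hzy
        by_cases hzx : z = x
        · subst hzx
          rcases mem_insert.1 hy with rfl | hy
          · exact absurd hzy (hxm y hc)
          · exact absurd hzy (hxm y (mem_of_mem_erase (hLS hy)))
        · exact h2 y hy z (mem_erase.2 ⟨hzx, hz⟩) hzy
      · intro y hy
        exact hxm y hy.1.2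
    · rintro ⟨⟨⟨hL, h1, h2⟩, -⟩, ⟨⟨hxc, hxS⟩, hxL⟩, hxm⟩
      have hxmS : ∀ y ∈ S, ¬ r x y := by
        intro y hy hxy
        by_cases hyL : y ∈ insert c L
        · have := h2 y hyL x hxS hxy
          simp [hxc, hxL] at this
        · simp only [mem_insert, not_or] at hyL
          exact hxm y ⟨⟨hyL.1, hy⟩, hyL.2⟩ hxy
      refine ⟨⟨hxc, hxS, hxmS⟩, ?_, ?_, ?_⟩
      · intro y hy
        have := hL hy
        simp only [mem_erase] at this ⊢
        refine ⟨this.1, ?_, this.2⟩
        rintro rfl
        exact hxL hy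
      · intro y hy z hz hzy
        exact h1 y hy z (mem_of_mem_erase hz) hzy
      · intro y hy z hz hzy
        exact h2 y hy z (mem_of_mem_erase hz) hzy
  have hsplit : ∑ L ∈ piv r S c, e r L * e r ((S.erase c) \ L) =
      ∑ L ∈ (piv r S c).filter (fun L => ((S.erase c) \ L).Nonempty),
        e r L * e r ((S.erase c) \ L) +
      ∑ L ∈ (piv r S c).filter (fun L => ¬ ((S.erase c) \ L).Nonempty),
        e r L * e r ((S.erase c) \ L) :=
    (sum_filter_add_sum_filter_not _ _ _).symm
  have h1 : ∑ L ∈ (piv r S c).filter (fun L => ((S.erase c) \ L).Nonempty),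
        e r L * e r ((S.erase c) \ L) =
      ∑ x ∈ (mx r S).erase c, e r (S.erase x) := by
    have e1 : ∀ L ∈ (piv r S c).filter (fun L => ((S.erase c) \ L).Nonempty),
        e r L * e r ((S.erase c) \ L) =
        ∑ x ∈ mx r ((S.erase c) \ L), e r L * e r (((S.erase c) \ L).erase x) := by
      intro L hL
      rw [e_max r (mem_filter.1 hL).2, mul_sum]
    rw [sum_congr rfl e1, ← sum_comm' fun x L => (key x L).trans and_comm]
    refine sum_congr rfl fun x hx => ?_
    obtain ⟨hxc, hx⟩ := mem_erase.1 hx
    have hxS := ((mem_mx r).1 hx).1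
    rw [ih (S.erase x).card (card_erase_lt_of_mem hxS) (S.erase x)
      (mem_erase.2 ⟨fun h => hxc h.symm, hc⟩) rfl]
    refine sum_congr rfl fun L hL => ?_
    congr 2
    ext y
    simp only [mem_erase, mem_sdiff]
    tauto
  have h2 : ∑ L ∈ (piv r S c).filter (fun L => ¬ ((S.erase c) \ L).Nonempty),
        e r L * e r ((S.erase c) \ L) =
      if c ∈ mx r S then e r (S.erase c) else 0 := by
    split_ifs with hcm
    · have : (piv r S c).filter (fun L => ¬ ((S.erase c) \ L).Nonempty) = {S.erase c} := by
        ext L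
        simp only [mem_filter, mem_piv, mem_singleton, not_nonempty_iff_eq_empty,
          sdiff_eq_empty_iff_subset]
        constructor
        · rintro ⟨⟨h, -, -⟩, h'⟩
          exact Subset.antisymm h h'
        · rintro rfl
          refine ⟨⟨Subset.rfl, ?_, ?_⟩, Subset.rfl⟩
          · intro x hx y hy hyx
            refine mem_erase.2 ⟨?_, hy⟩
            rintro rfl
            exact ((mem_mx r).1 hcm).2 x (mem_of_mem_erase hx) hyx
          · intro x _ y hy _
            rw [insert_erase hc]
            exact hy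
      rw [this, sum_singleton, Finset.sdiff_self, e_empty, mul_one]
    · refine sum_eq_zero fun L hL => ?_
      exfalso
      simp only [mem_filter, mem_piv, not_nonempty_iff_eq_empty,
        sdiff_eq_empty_iff_subset] at hL
      obtain ⟨⟨h, h1, -⟩, h'⟩ := hL
      apply hcm
      rw [mem_mx]
      refine ⟨hc, fun y hy hcy => ?_⟩
      have hyc : y ≠ c := by
        rintro rfl
        exact hr _ hcy
      have := h1 y (h' (mem_erase.2 ⟨hyc, hy⟩)) c hc hcy
      exact (mem_erase.1 (h this)).1 rfl
  rw [hsplit, h1, h2, e_max r ⟨c, hc⟩]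
  split_ifs with hcm
  · rw [add_comm, add_sum_erase _ (fun x => e r (S.erase x)) hcm]
  · rw [erase_eq_of_notMem hcm, add_zero]

/-- removing minimal elements -/
theorem e_min (hr : ∀ x, ¬ r x x) {S : Finset α} (hS : S.Nonempty) :
    e r S = ∑ x ∈ mn r S, e r (S.erase x) := by
  classical
  induction hn : S.card using Nat.strong_induction_on generalizing S with
  | _ n ih =>
  subst hn
  by_cases h1 : S.card = 1
  · obtain ⟨x, rfl⟩ := card_eq_one.1 h1
    rw [e_max r hS]
    have e1 : mx r {x} = {x} := by
      ext y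
      simp only [mem_mx, mem_singleton]
      constructor
      · exact fun h => h.1
      · rintro rfl
        exact ⟨rfl, by rintro _ rfl; exact hr _⟩
    have e2 : mn r {x} = {x} := by
      ext y
      simp only [mem_mn, mem_singleton]
      constructor
      · exact fun h => h.1
      · rintro rfl
        exact ⟨rfl, by rintro _ rfl; exact hr _⟩
    rw [e1, e2]
  have h2 : 2 ≤ S.card := by
    have := hS.card_pos
    omega
  have hne : ∀ x ∈ S, (S.erase x).Nonempty := by
    intro x hx
    rw [← card_pos, card_erase_of_mem hx]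
    omega
  rw [e_max r hS]
  have e1 : ∀ y ∈ mx r S, e r (S.erase y) =
      ∑ x ∈ mn r (S.erase y), e r ((S.erase y).erase x) := by
    intro y hy
    have hyS := ((mem_mx r).1 hy).1
    exact ih _ (card_erase_lt_of_mem hyS) (hne y hyS) rfl
  have e2 : ∀ x ∈ mn r S, e r (S.erase x) =
      ∑ y ∈ mx r (S.erase x), e r ((S.erase x).erase y) := by
    intro x hx
    exact e_max r (hne x ((mem_mn r).1 hx).1)
  rw [sum_congr rfl e1, sum_congr rfl e2]
  have key : ∀ y x, (y ∈ mx r S ∧ x ∈ mn r (S.erase y)) ↔
      (y ∈ mx r (S.erase x) ∧ x ∈ mn r S) := by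
    intro y x
    simp only [mem_mx, mem_mn, mem_erase]
    constructor
    · rintro ⟨⟨hy, hym⟩, ⟨hxy, hx⟩, hxm⟩
      refine ⟨⟨⟨fun h => hxy h.symm, hy⟩, fun z hz => hym z hz.2⟩, hx, fun z hz hzx => ?_⟩
      by_cases hzy : z = y
      · subst hzy
        exact hym x hx hzx
      · exact hxm z ⟨hzy, hz⟩ hzx
    · rintro ⟨⟨⟨hyx, hy⟩, hym⟩, hx, hxm⟩
      refine ⟨⟨hy, fun z hz hyz => ?_⟩, ⟨fun h => hyx h.symm, hx⟩, fun z hz => hxm z hz.2⟩
      by_cases hzx : z = x
      · subst hzx
        exact hxm y hy hyz
      · exact hym z ⟨hzx, hz⟩ hyz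
  rw [sum_comm' key]
  refine sum_congr rfl fun x _ => sum_congr rfl fun y _ => ?_
  rw [erase_right_comm]

/-- the reversed relation has the same count -/
theorem e_swap (hr : ∀ x, ¬ r x x) (S : Finset α) : e (fun a b => r b a) S = e r S := by
  classical
  induction hn : S.card using Nat.strong_induction_on generalizing S with
  | _ n ih =>
  subst hn
  rcases S.eq_empty_or_nonempty with rfl | hS
  · rw [e_empty, e_empty]
  · rw [e_max _ hS, e_min r hr hS]
    have : mx (fun a b => r b a) S = mn r S := by
      ext x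
      rw [mem_mx, mem_mn]
    rw [this]
    refine sum_congr rfl fun x hx => ?_
    exact ih _ (card_erase_lt_of_mem ((mem_mn r).1 hx).1) _ rfl

/-- transport along an injection on `S` -/
theorem e_image {β : Type*} [DecidableEq β] (r' : β → β → Prop) (f : α → β) (S : Finset α)
    (hf : Set.InjOn f S) (hrr : ∀ a ∈ S, ∀ b ∈ S, r' (f a) (f b) ↔ r a b) :
    e r' (S.image f) = e r S := by
  classical
  induction hn : S.card using Nat.strong_induction_on generalizing S with
  | _ n ih =>
  subst hn
  rcases S.eq_empty_or_nonempty with rfl | hS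
  · rw [image_empty, e_empty, e_empty]
  · rw [e_max _ (hS.image f), e_max r hS]
    have : mx r' (S.image f) = (mx r S).image f := by
      ext x
      simp only [mem_mx, mem_image]
      constructor
      · rintro ⟨⟨a, ha, rfl⟩, h⟩
        refine ⟨a, ⟨ha, fun y hy hay => ?_⟩, rfl⟩
        exact h (f y) ⟨y, hy, rfl⟩ ((hrr a ha y hy).2 hay)
      · rintro ⟨a, ⟨ha, h⟩, rfl⟩
        refine ⟨⟨a, ha, rfl⟩, ?_⟩
        rintro _ ⟨y, hy, rfl⟩ hay
        exact h y hy ((hrr a ha y hy).1 hay)
    rw [this, sum_image]
    · refine sum_congr rfl fun x hx => ?_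
      have hxS := ((mem_mx r).1 hx).1
      have h2 : (S.image f).erase (f x) = (S.erase x).image f := by
        ext y
        simp only [mem_erase, mem_image]
        constructor
        · rintro ⟨h1, a, ha, rfl⟩
          exact ⟨a, ⟨fun h => h1 (by rw [h]), ha⟩, rfl⟩
        · rintro ⟨a, ⟨h1, ha⟩, rfl⟩
          exact ⟨fun h => h1 (hf ha hxS h), a, ha, rfl⟩
      rw [h2]
      refine ih _ (card_erase_lt_of_mem hxS) _ (hf.mono ?_) ?_ rfl
      · intro a ha
        exact mem_of_mem_erase ha
      · intro a ha b hb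
        exact hrr a (mem_of_mem_erase ha) b (mem_of_mem_erase hb)
    · intro a ha b hb hab
      exact hf ((mem_mx r).1 ha).1 ((mem_mx r).1 hb).1 hab

end

end Pool.Agent.P8H42.Trunc
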