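import Pool.Agent.P8H42.Trunc.A

/-!
The number of standard fillings of a finite set of cells.
-/

set_option autoImplicit false
set_option linter.unusedSectionVars false

namespace Pool.Agent.P8H42.Trunc

open Finset

section
variable {α : Type*} [DecidableEq α] (r : α → α → Prop)

/-- fillings, extended by `0` -/
def TabSet (S : Finset α) : Set (α → ℕ) :=
  {T | (∀ x, x ∉ S → T x = 0) ∧ Set.InjOn T S ∧ (∀ x ∈ S, 1 ≤ T x ∧ T x ≤ S.card) ∧
    ∀ x ∈ S, ∀ y ∈ S, r x y → T x < T y}

theorem surj_of {S : Finset α} {T : α → ℕ} (h1 : Set.InjOn T S)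
    (h2 : ∀ x ∈ S, 1 ≤ T x ∧ T x ≤ S.card) {k : ℕ} (hk : 1 ≤ k) (hk' : k ≤ S.card) :
    ∃ x ∈ S, T x = k := by
  have h3 : S.image T = Icc 1 S.card := by
    refine eq_of_subset_of_card_le ?_ ?_
    · intro y hy
      obtain ⟨x, hx, rfl⟩ := mem_image.1 hy
      exact mem_Icc.2 (h2 x hx)
    · rw [card_image_of_injOn h1, Nat.card_Icc, Nat.add_sub_cancel]
  have h4 : k ∈ S.image T := by
    rw [h3]
    exact mem_Icc.2 ⟨hk, hk'⟩
  obtain ⟨x, hx, rfl⟩ := mem_image.1 h4
  exact ⟨x, hx, rfl⟩

theorem tab_count (S : Finset α) :
    ∃ F : Finset (α → ℕ), (F : Set (α → ℕ)) = TabSet r S ∧ F.card = e r S := by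
  classical
  induction hn : S.card using Nat.strong_induction_on generalizing S with
  | _ n ih =>
  subst hn
  rcases S.eq_empty_or_nonempty with rfl | hS
  · refine ⟨{fun _ => 0}, ?_, by rw [e_empty, card_singleton]⟩
    ext T
    simp only [coe_singleton, Set.mem_singleton_iff, TabSet, Set.mem_ofPred_eq]
    constructor
    · rintro rfl
      simp
    · rintro ⟨h, -⟩
      funext x
      exact h x (by simp)
  have hcard := hS.card_pos
  choose! F hF1 hF2 using fun x (hx : x ∈ S) =>
    ih (S.erase x).card (card_erase_lt_of_mem hx) (S.erase x) rfl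
  -- the map
  have hupd : ∀ x ∈ S, ∀ T ∈ TabSet r (S.erase x), T x = 0 := by
    intro x _ T hT
    exact hT.1 x (by simp)
  have hval : ∀ x ∈ S, ∀ T ∈ TabSet r (S.erase x), ∀ y ∈ S, y ≠ x →
      1 ≤ T y ∧ T y < S.card := by
    intro x hx T hT y hy hyx
    have := hT.2.2.1 y (mem_erase.2 ⟨hyx, hy⟩)
    rw [card_erase_of_mem hx] at this
    omega
  refine ⟨(mx r S).biUnion fun x => (F x).image fun T => Function.update T x S.card, ?_, ?_⟩
  · ext T
    simp only [coe_biUnion, Set.mem_iUnion, mem_coe, mem_image, exists_prop, mem_mx]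
    constructor
    · rintro ⟨x, ⟨hx, hxm⟩, T', hT', rfl⟩
      have hT : T' ∈ TabSet r (S.erase x) := by
        rw [← hF1 x hx]
        exact hT'
      refine ⟨?_, ?_, ?_, ?_⟩
      · intro y hy
        have hyx : y ≠ x := by
          rintro rfl
          exact hy hx
        rw [Function.update_of_ne hyx]
        exact hT.1 y (fun h => hy (mem_of_mem_erase h))
      · intro y hy z hz hyz
        by_cases hyx : y = x
        · subst hyx
          by_cases hzx : z = y
          · exact hzx.symm
          · rw [Function.update_self, Function.update_of_ne hzx] at hyz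
            have := hval y hx T' hT z hz hzx
            omega
        · by_cases hzx : z = x
          · subst hzx
            rw [Function.update_self, Function.update_of_ne hyx] at hyz
            have := hval z hx T' hT y hy hyx
            omega
          · rw [Function.update_of_ne hyx, Function.update_of_ne hzx] at hyz
            exact hT.2.1 (mem_coe.2 (mem_erase.2 ⟨hyx, hy⟩)) (mem_coe.2 (mem_erase.2 ⟨hzx, hz⟩)) hyz
      · intro y hy
        by_cases hyx : y = x
        · subst hyx
          rw [Function.update_self]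
          omega
        · rw [Function.update_of_ne hyx]
          have := hval x hx T' hT y hy hyx
          omega
      · intro y hy z hz hyz
        have hyx : y ≠ x := by
          rintro rfl
          exact hxm z hz hyz
        rw [Function.update_of_ne hyx]
        by_cases hzx : z = x
        · subst hzx
          rw [Function.update_self]
          exact (hval z hx T' hT y hy hyx).2
        · rw [Function.update_of_ne hzx]
          exact hT.2.2.2 y (mem_erase.2 ⟨hyx, hy⟩) z (mem_erase.2 ⟨hzx, hz⟩) hyz
    · intro hT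
      obtain ⟨x, hx, hxT⟩ := surj_of hT.2.1 hT.2.2.1 hcard le_rfl
      have hlt : ∀ y ∈ S, y ≠ x → T y < S.card := by
        intro y hy hyx
        have h1 := (hT.2.2.1 y hy).2
        have h2 : T y ≠ T x := fun h => hyx (hT.2.1 hy hx h)
        omega
      refine ⟨x, ⟨hx, ?_⟩, Function.update T x 0, ?_, ?_⟩
      · intro y hy hxy
        have := hT.2.2.2 x hx y hy hxy
        have := (hT.2.2.1 y hy).2
        omega
      · have : Function.update T x 0 ∈ TabSet r (S.erase x) := by
          refine ⟨?_, ?_, ?_, ?_⟩
          · intro y hy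
            by_cases hyx : y = x
            · subst hyx
              rw [Function.update_self]
            · rw [Function.update_of_ne hyx]
              exact hT.1 y (fun h => hy (mem_erase.2 ⟨hyx, h⟩))
          · intro y hy z hz hyz
            simp only [coe_erase, Set.mem_sdiff, mem_coe, Set.mem_singleton_iff] at hy hz
            rw [Function.update_of_ne hy.2, Function.update_of_ne hz.2] at hyz
            exact hT.2.1 hy.1 hz.1 hyz
          · intro y hy
            obtain ⟨hyx, hy⟩ := mem_erase.1 hy
            rw [Function.update_of_ne hyx, card_erase_of_mem hx]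
            have h1 := (hT.2.2.1 y hy).1
            have h2 := hlt y hy hyx
            omega
          · intro y hy z hz hyz
            obtain ⟨hyx, hy⟩ := mem_erase.1 hy
            obtain ⟨hzx, hz⟩ := mem_erase.1 hz
            rw [Function.update_of_ne hyx, Function.update_of_ne hzx]
            exact hT.2.2.2 y hy z hz hyz
        rw [← hF1 x hx] at this
        exact this
      · rw [Function.update_idem, ← hxT, Function.update_eq_self]
  · rw [card_biUnion, e_max r hS]
    · refine sum_congr rfl fun x hx => ?_
      have hxS := ((mem_mx r).1 hx).1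
      rw [card_image_of_injOn, hF2 x hxS]
      intro T hT T' hT' h
      have hT1 : T ∈ TabSet r (S.erase x) := by
        rw [← hF1 x hxS]; exact hT
      have hT2 : T' ∈ TabSet r (S.erase x) := by
        rw [← hF1 x hxS]; exact hT'
      have h3 := congrArg (fun f => Function.update f x 0) h
      simp only [Function.update_idem] at h3
      have h4 : Function.update T x 0 = T := by
        rw [← hupd x hxS T hT1, Function.update_eq_self]
      have h5 : Function.update T' x 0 = T' := by
        rw [← hupd x hxS T' hT2, Function.update_eq_self]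
      rw [h4, h5] at h3
      exact h3
    · intro x hx y hy hxy
      have hxS := ((mem_mx r).1 hx).1
      have hyS := ((mem_mx r).1 hy).1
      rw [Function.onFun, disjoint_left]
      intro T h1 h2
      obtain ⟨T1, hT1, rfl⟩ := mem_image.1 h1
      obtain ⟨T2, hT2, h3⟩ := mem_image.1 h2
      have hT1' : T1 ∈ TabSet r (S.erase x) := by
        rw [← hF1 x hxS]; exact hT1
      have h4 := congrFun h3 y
      simp only [Function.update_self, Function.update_of_ne hxy.symm] at h4
      have := hval x hxS T1 hT1' y hyS hxy.symm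
      omega

theorem ncard_tab (S : Finset α) : (TabSet r S).ncard = e r S := by
  obtain ⟨F, h1, h2⟩ := tab_count r S
  rw [← h1, Set.ncard_coe_finset, h2]

end

/-- A standard Young tableau of shape `S` (a finite set of cells `(i, j)`, row `i`, column `j`): a
bijection from `S` to `{1, ..., |S|}` with `T (i, j) < T (i, j + 1)` and `T (i, j) < T (i + 1, j)`
whenever both cells are in `S`. -/
def IsSYT (S : Finset (ℕ × ℕ)) (T : S → ℕ) : Prop :=
  Set.BijOn T Set.univ (Set.Icc 1 S.card) ∧
  (∀ p q : S, q.1 = (p.1.1, p.1.2 + 1) → T p < T q) ∧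
  (∀ p q : S, q.1 = (p.1.1 + 1, p.1.2) → T p < T q)

/-- The number of standard Young tableaux of shape `S`. -/
noncomputable def numSYT (S : Finset (ℕ × ℕ)) : ℕ := {T : S → ℕ | IsSYT S T}.ncard

/-- adjacency of cells -/
def adj (p q : ℕ × ℕ) : Prop := q = (p.1, p.2 + 1) ∨ q = (p.1 + 1, p.2)

theorem adj_irrefl (p : ℕ × ℕ) : ¬ adj p p := by
  rintro (h | h)
  · have := congrArg Prod.snd h
    simp at this
  · have := congrArg Prod.fst h
    simp at this

theorem numSYT_eq (S : Finset (ℕ × ℕ)) : numSYT S = e adj S := by
  classical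
  rw [← ncard_tab, numSYT]
  refine Set.ncard_congr (fun T _ => fun p => if h : p ∈ S then T ⟨p, h⟩ else 0) ?_ ?_ ?_
  · intro T hT
    obtain ⟨hb, hr, hc⟩ := hT
    refine ⟨fun x hx => by simp [hx], ?_, ?_, ?_⟩
    · intro x hx y hy hxy
      rw [mem_coe] at hx hy
      simp only [hx, hy, dif_pos] at hxy
      have := hb.2.1 (Set.mem_univ _) (Set.mem_univ _) hxy
      exact congrArg Subtype.val this
    · intro x hx
      simp only [hx, dif_pos]
      exact hb.1 (Set.mem_univ _)
    · intro x hx y hy hxy
      simp only [hx, hy, dif_pos]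
      rcases hxy with h | h
      · exact hr ⟨x, hx⟩ ⟨y, hy⟩ h
      · exact hc ⟨x, hx⟩ ⟨y, hy⟩ h
  · intro T T' _ _ h
    funext p
    have := congrFun h p.1
    simpa [p.2] using this
  · intro T hT
    obtain ⟨h0, h1, h2, h3⟩ := hT
    refine ⟨fun p => T p.1, ⟨⟨?_, ?_, ?_⟩, ?_, ?_⟩, ?_⟩
    · intro p _
      exact h2 p.1 p.2
    · intro p _ q _ hpq
      exact Subtype.ext (h1 p.2 q.2 hpq)
    · intro k hk
      obtain ⟨x, hx, rfl⟩ := surj_of h1 h2 hk.1 hk.2
      exact ⟨⟨x, hx⟩, Set.mem_univ _, rfl⟩
    · intro p q h
      exact h3 p.1 p.2 q.1 q.2 (Or.inl h)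
    · intro p q h
      exact h3 p.1 p.2 q.1 q.2 (Or.inr h)
    · funext p
      by_cases h : p ∈ S
      · simp [h]
      · simp [h, h0 p h]

end Pool.Agent.P8H42.Trunc
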