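import Pool.Agent.P8H42.Trunc.B

/-!
The number of standard fillings of a Young diagram, by the determinantal (Frobenius) formula.
-/

set_option autoImplicit false
set_option linter.unusedSectionVars false

namespace Pool.Agent.P8H42.Trunc

open Finset Polynomial

/-- the Vandermonde product -/
def V {m : ℕ} (x : Fin m → ℚ) : ℚ := ∏ i, ∏ j ∈ Ioi i, (x j - x i)

theorem V_det {m : ℕ} (x : Fin m → ℚ) :
    V x = (Matrix.of fun i j : Fin m => (descPochhammer ℚ j).eval (x i)).det := by
  rw [← Matrix.det_eval_matrixOfPolynomials_eq_det_vandermonde x (fun j => descPochhammer ℚ j)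
    (fun j => descPochhammer_natDegree _ _) (fun j => monic_descPochhammer _ _),
    Matrix.det_vandermonde, V]

theorem V_leib {m : ℕ} (x : Fin m → ℚ) :
    V x = ∑ σ : Equiv.Perm (Fin m), ((Equiv.Perm.sign σ : ℤ) : ℚ) *
      ∏ i : Fin m, (descPochhammer ℚ (i : ℕ)).eval (x (σ i)) := by
  rw [V_det, Matrix.det_apply']
  rfl

theorem V_eq_zero {m : ℕ} (x : Fin m → ℚ) (i j : Fin m) (hij : i ≠ j) (h : x i = x j) :
    V x = 0 := by
  rcases lt_or_gt_of_ne hij with h1 | h1
  · exact prod_eq_zero (mem_univ i) (prod_eq_zero (mem_Ioi.2 h1) (by rw [h, sub_self]))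
  · exact prod_eq_zero (mem_univ j) (prod_eq_zero (mem_Ioi.2 h1) (by rw [h, sub_self]))

theorem V_id (m : ℕ) : V (fun a : Fin m => (a : ℚ)) = ∏ a : Fin m, ((a : ℕ).factorial : ℚ) := by
  rw [V_det, Matrix.det_of_isLowerTriangular]
  · refine prod_congr rfl fun i _ => ?_
    rw [Matrix.of_apply, descPochhammer_eval_eq_descFactorial, Nat.descFactorial_self]
  · intro i j hij
    have : (i : ℕ) < j := hij
    rw [Matrix.of_apply, descPochhammer_eval_eq_descFactorial,
      Nat.descFactorial_eq_zero_iff_lt.2 this, Nat.cast_zero]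

theorem desc_shift (k : ℕ) (t : ℚ) :
    t * (descPochhammer ℚ k).eval (t - 1) = (descPochhammer ℚ k).eval t * (t - k) := by
  have h1 := congrArg (Polynomial.eval t) (descPochhammer_succ_left ℚ k)
  have h2 := congrArg (Polynomial.eval t) (descPochhammer_succ_right ℚ k)
  rw [h1] at h2
  simpa [eval_comp] using h2

theorem frob {m : ℕ} (x : Fin m → ℚ) :
    ∑ a, x a * V (Function.update x a (x a - 1)) =
      (∑ a, x a - ∑ a : Fin m, ((a : ℕ) : ℚ)) * V x := by
  have h : ∀ a, x a * V (Function.update x a (x a - 1)) =
      ∑ σ : Equiv.Perm (Fin m), (((Equiv.Perm.sign σ : ℤ) : ℚ) *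
      ∏ i : Fin m, (descPochhammer ℚ (i : ℕ)).eval (x (σ i))) * (x a - ((σ.symm a : Fin m) : ℕ)) := by
    intro a
    rw [V_leib, mul_sum]
    refine sum_congr rfl fun σ _ => ?_
    have hk : σ (σ.symm a) = a := σ.apply_symm_apply a
    rw [← mul_prod_erase univ _ (mem_univ (σ.symm a)),
      ← mul_prod_erase univ (fun i : Fin m => (descPochhammer ℚ (i : ℕ)).eval (x (σ i)))
        (mem_univ (σ.symm a))]
    have e1 : ∏ i ∈ univ.erase (σ.symm a), (descPochhammer ℚ (i : ℕ)).eval
        (Function.update x a (x a - 1) (σ i)) =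
        ∏ i ∈ univ.erase (σ.symm a), (descPochhammer ℚ (i : ℕ)).eval (x (σ i)) := by
      refine prod_congr rfl fun i hi => ?_
      rw [Function.update_of_ne]
      rintro rfl
      simp at hi
    rw [e1, hk, Function.update_self]
    have := desc_shift (σ.symm a : Fin m) (x a)
    linear_combination (((Equiv.Perm.sign σ : ℤ) : ℚ) *
      ∏ i ∈ univ.erase (σ.symm a), (descPochhammer ℚ (i : ℕ)).eval (x (σ i))) * this
  simp_rw [h]
  rw [sum_comm, V_leib, mul_sum]
  refine sum_congr rfl fun σ _ => ?_
  rw [← mul_sum, sum_sub_distrib, Equiv.sum_comp σ.symm (fun a : Fin m => ((a : ℕ) : ℚ)), mul_comm]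

/-- the Young diagram with columns of heights `b`, numbered from the right -/
def YD {m : ℕ} (b : Fin m → ℕ) : Finset (ℕ × ℕ) :=
  univ.biUnion fun a : Fin m => (Icc 1 (b a)).image fun i => (i, m - (a : ℕ))

theorem mem_YD {m : ℕ} {b : Fin m → ℕ} {p : ℕ × ℕ} :
    p ∈ YD b ↔ ∃ a : Fin m, p.2 = m - a ∧ 1 ≤ p.1 ∧ p.1 ≤ b a := by
  obtain ⟨i, j⟩ := p
  simp only [YD, mem_biUnion, mem_univ, true_and, mem_image, mem_Icc, Prod.mk.injEq]
  constructor
  · rintro ⟨a, k, hk, rfl, rfl⟩
    exact ⟨a, rfl, hk.1, hk.2⟩
  · rintro ⟨a, h1, h2, h3⟩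
    exact ⟨a, i, ⟨h2, h3⟩, rfl, h1.symm⟩

theorem mem_YD' {m : ℕ} {b : Fin m → ℕ} {i : ℕ} {a : Fin m} :
    (i, m - (a : ℕ)) ∈ YD b ↔ 1 ≤ i ∧ i ≤ b a := by
  rw [mem_YD]
  constructor
  · rintro ⟨a', h1, h2, h3⟩
    have : a = a' := by
      apply Fin.ext
      have := a.2
      have := a'.2
      simp only at h1
      omega
    subst this
    exact ⟨h2, h3⟩
  · rintro ⟨h2, h3⟩
    exact ⟨a, rfl, h2, h3⟩

theorem card_YD {m : ℕ} (b : Fin m → ℕ) : (YD b).card = ∑ a, b a := by
  rw [YD, card_biUnion]
  · refine sum_congr rfl fun a _ => ?_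
    rw [card_image_of_injective _ (fun i j h => (Prod.mk.inj h).1), Nat.card_Icc,
      Nat.add_sub_cancel]
  · intro a _ a' _ haa'
    rw [Function.onFun, disjoint_left]
    intro p h1 h2
    obtain ⟨i, -, rfl⟩ := mem_image.1 h1
    obtain ⟨i', -, h3⟩ := mem_image.1 h2
    have h4 := (Prod.mk.inj h3).2
    apply haa'
    apply Fin.ext
    have := a.2
    have := a'.2
    omega

/-- columns with a corner -/
def Kor {m : ℕ} (b : Fin m → ℕ) : Finset (Fin m) :=
  univ.filter fun a => 0 < b a ∧ ∀ a' : Fin m, (a' : ℕ) + 1 = a → b a' < b a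

theorem mx_YD {m : ℕ} (b : Fin m → ℕ) :
    mx adj (YD b) = (Kor b).image fun a => (b a, m - (a : ℕ)) := by
  ext p
  simp only [mem_mx, mem_image, Kor, mem_filter, mem_univ, true_and]
  constructor
  · rintro ⟨hp, hm⟩
    obtain ⟨a, h1, h2, h3⟩ := mem_YD.1 hp
    obtain ⟨i, j⟩ := p
    simp only at h1 h2 h3
    subst h1
    have h4 : i = b a := by
      by_contra h
      refine hm (i + 1, m - a) (mem_YD'.2 ⟨by omega, by omega⟩) (Or.inr rfl)
    subst h4
    refine ⟨a, ⟨by omega, fun a' ha' => ?_⟩, rfl⟩
    by_contra h
    refine hm (b a, m - a') (mem_YD'.2 ⟨by omega, by omega⟩) (Or.inl ?_)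
    have := a.2
    simp only [Prod.mk.injEq, true_and]
    omega
  · rintro ⟨a, ⟨h1, h2⟩, rfl⟩
    refine ⟨mem_YD'.2 ⟨by omega, le_rfl⟩, ?_⟩
    rintro q hq (h | h)
    · subst h
      obtain ⟨a', h3, h4, h5⟩ := mem_YD.1 hq
      simp only at h3 h4 h5
      have := a.2
      have := a'.2
      have := h2 a' (by omega)
      omega
    · subst h
      have := (mem_YD'.1 hq).2
      omega

theorem erase_YD {m : ℕ} (b : Fin m → ℕ) (a : Fin m) :
    (YD b).erase (b a, m - (a : ℕ)) = YD (Function.update b a (b a - 1)) := by
  ext ⟨i, j⟩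
  simp only [mem_erase, mem_YD, ne_eq, Prod.mk.injEq]
  constructor
  · rintro ⟨h0, c, rfl, h2, h3⟩
    refine ⟨c, rfl, h2, ?_⟩
    by_cases hc : c = a
    · subst hc
      rw [Function.update_self]
      have : i ≠ b c := fun h => h0 ⟨h, rfl⟩
      omega
    · rw [Function.update_of_ne hc]
      exact h3
  · rintro ⟨c, rfl, h2, h3⟩
    by_cases hc : c = a
    · subst hc
      rw [Function.update_self] at h3
      exact ⟨by omega, c, rfl, h2, by omega⟩
    · rw [Function.update_of_ne hc] at h3
      refine ⟨?_, c, rfl, h2, h3⟩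
      rintro ⟨-, h⟩
      apply hc
      apply Fin.ext
      have := a.2
      have := c.2
      omega

/-- **The number of standard fillings of a Young diagram.** -/
theorem e_YD {m : ℕ} (b : Fin m → ℕ) (hb : Monotone b) :
    (e adj (YD b) : ℚ) * ∏ a : Fin m, ((b a + (a : ℕ)).factorial : ℚ) =
      ((∑ a, b a).factorial : ℚ) * V (fun a => (b a : ℚ) + ((a : ℕ) : ℚ)) := by
  induction hn : ∑ a, b a generalizing b with
  | zero =>
    have h0 : ∀ a, b a = 0 := by
      intro a
      exact (sum_eq_zero_iff.1 hn) a (mem_univ a)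
    have h1 : YD b = ∅ := by
      rw [← card_eq_zero, card_YD, hn]
    rw [h1, e_empty]
    simp only [h0, Nat.cast_one, zero_add, Nat.cast_zero, one_mul, Nat.factorial_zero]
    exact (V_id m).symm
  | succ s ih =>
    have hne : (YD b).Nonempty := by
      rw [← card_pos, card_YD, hn]
      omega
    rw [e_max _ hne, mx_YD, sum_image]
    · simp_rw [erase_YD]
      rw [Nat.cast_sum, sum_mul]
      have key : ∀ a ∈ Kor b, (e adj (YD (Function.update b a (b a - 1))) : ℚ) *
          ∏ a : Fin m, ((b a + (a : ℕ)).factorial : ℚ) =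
          (s.factorial : ℚ) * (((b a : ℚ) + ((a : ℕ) : ℚ)) *
            V (Function.update (fun a => (b a : ℚ) + ((a : ℕ) : ℚ)) a
              ((b a : ℚ) + ((a : ℕ) : ℚ) - 1))) := by
        intro a ha
        simp only [Kor, mem_filter, mem_univ, true_and] at ha
        obtain ⟨ha, ha'⟩ := ha
        have hmono : Monotone (Function.update b a (b a - 1)) := by
          intro x y hxy
          by_cases hx : x = a
          · subst hx
            by_cases hy : y = x
            · subst hy
              exact le_rfl
            · rw [Function.update_self, Function.update_of_ne hy]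
              have := hb hxy
              omega
          · rw [Function.update_of_ne hx]
            by_cases hy : y = a
            · subst hy
              rw [Function.update_self]
              have h1 : (x : ℕ) < y := lt_of_le_of_ne hxy (fun h => hx (Fin.ext h))
              have h2 : (y : ℕ) - 1 < m := by
                have := y.2
                omega
              have h3 := ha' ⟨(y : ℕ) - 1, h2⟩ (by simp only; omega)
              have h4 : b x ≤ b ⟨(y : ℕ) - 1, h2⟩ := hb (by
                rw [Fin.le_def]
                simp only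
                omega)
              omega
            · rw [Function.update_of_ne hy]
              exact hb hxy
        have hsum : ∑ c, Function.update b a (b a - 1) c = s := by
          rw [← add_sum_erase univ _ (mem_univ a), Function.update_self]
          rw [← add_sum_erase univ _ (mem_univ a)] at hn
          have : ∑ x ∈ univ.erase a, Function.update b a (b a - 1) x =
              ∑ x ∈ univ.erase a, b x := by
            refine sum_congr rfl fun x hx => ?_
            rw [Function.update_of_ne (ne_of_mem_erase hx)]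
          omega
        have h1 := ih (Function.update b a (b a - 1)) hmono hsum
        have h2 : (fun c : Fin m => ((Function.update b a (b a - 1) c : ℕ) : ℚ) +
            ((c : ℕ) : ℚ)) =
            Function.update (fun a => (b a : ℚ) + ((a : ℕ) : ℚ)) a
              ((b a : ℚ) + ((a : ℕ) : ℚ) - 1) := by
          funext c
          by_cases hc : c = a
          · subst hc
            rw [Function.update_self, Function.update_self, Nat.cast_sub ha, Nat.cast_one]
            ring
          · rw [Function.update_of_ne hc, Function.update_of_ne hc]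
        rw [h2] at h1
        have h3 : ∏ a : Fin m, ((b a + (a : ℕ)).factorial : ℚ) =
            ((b a : ℚ) + ((a : ℕ) : ℚ)) *
            ∏ c : Fin m, ((Function.update b a (b a - 1) c + (c : ℕ)).factorial : ℚ) := by
          rw [← mul_prod_erase univ _ (mem_univ a),
            ← mul_prod_erase univ (fun c : Fin m =>
              ((Function.update b a (b a - 1) c + (c : ℕ)).factorial : ℚ)) (mem_univ a),
            Function.update_self]
          have h4 : ∏ c ∈ univ.erase a,
              ((Function.update b a (b a - 1) c + (c : ℕ)).factorial : ℚ) =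
              ∏ c ∈ univ.erase a, ((b c + (c : ℕ)).factorial : ℚ) := by
            refine prod_congr rfl fun x hx => ?_
            rw [Function.update_of_ne (ne_of_mem_erase hx)]
          rw [h4]
          have h5 : b a + (a : ℕ) = (b a - 1 + (a : ℕ)) + 1 := by omega
          rw [h5, Nat.factorial_succ, ← h5]
          push_cast
          ring
        rw [h3]
        linear_combination ((b a : ℚ) + ((a : ℕ) : ℚ)) * h1
      rw [sum_congr rfl key]
      have hzero : ∀ a ∉ Kor b, (s.factorial : ℚ) * (((b a : ℚ) + ((a : ℕ) : ℚ)) *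
            V (Function.update (fun a => (b a : ℚ) + ((a : ℕ) : ℚ)) a
              ((b a : ℚ) + ((a : ℕ) : ℚ) - 1))) = 0 := by
        intro a ha
        simp only [Kor, mem_filter, mem_univ, true_and, not_and, not_forall, not_lt] at ha
        by_cases h0 : (a : ℕ) = 0
        · have : b a = 0 := by
            by_contra h
            obtain ⟨a', h1, -⟩ := ha (Nat.pos_of_ne_zero h)
            omega
          rw [this, h0]
          simp
        · have h2 : (a : ℕ) - 1 < m := by
            have := a.2
            omega
          have h3 : b ⟨(a : ℕ) - 1, h2⟩ ≤ b a := hb (by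
            rw [Fin.le_def]
            simp only
            omega)
          have h4 : b ⟨(a : ℕ) - 1, h2⟩ = b a := by
            by_cases h : b a = 0
            · omega
            · obtain ⟨a', h5, h6⟩ := ha (Nat.pos_of_ne_zero h)
              have : a' = ⟨(a : ℕ) - 1, h2⟩ := Fin.ext (by simp only; omega)
              subst this
              omega
          have hne : (⟨(a : ℕ) - 1, h2⟩ : Fin m) ≠ a := by
            intro h
            have := congrArg Fin.val h
            simp only at this
            omega
          rw [V_eq_zero _ ⟨(a : ℕ) - 1, h2⟩ a hne]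
          · ring
          · rw [Function.update_self, Function.update_of_ne hne, h4]
            simp only
            rw [Nat.cast_sub (by omega)]
            push_cast
            ring
      rw [sum_subset (subset_univ (Kor b)) (fun a _ ha => hzero a ha), ← mul_sum,
        frob (fun a : Fin m => (b a : ℚ) + ((a : ℕ) : ℚ)), sum_add_distrib,
        add_sub_cancel_right, ← Nat.cast_sum, hn, Nat.factorial_succ]
      push_cast
      ring
    · intro a _ a' _ h
      have h4 := (Prod.mk.inj h).2
      apply Fin.ext
      have := a.2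
      have := a'.2
      omega

end Pool.Agent.P8H42.Trunc
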