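import Pool.Agent.P8H42.Trunc.C

/-!
The truncated square, cut at the pivot cell.
-/

set_option autoImplicit false
set_option linter.unusedSectionVars false

namespace Pool.Agent.P8H42.Trunc

open Finset

/-- The `n × n` square without the two rightmost cells of the top row. -/
def Dn (n : ℕ) : Finset (ℕ × ℕ) := (Icc 1 n ×ˢ Icc 1 n) \ {(1, n - 1), (1, n)}

theorem mem_Dn {m i j : ℕ} : (i, j) ∈ Dn (m + 3) ↔
    1 ≤ i ∧ i ≤ m + 3 ∧ 1 ≤ j ∧ j ≤ m + 3 ∧ (2 ≤ i ∨ j ≤ m + 1) := by
  simp only [Dn, mem_sdiff, mem_product, mem_Icc, mem_insert, mem_singleton, Prod.mk.injEq, not_or,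
    not_and]
  omega

/-- the admissible height functions -/
noncomputable def MM (m : ℕ) : Finset (Fin m → ℕ) := by
  classical exact (Fintype.piFinset fun _ : Fin m => Icc 1 (m + 3)).filter Monotone

theorem mem_MM {m : ℕ} {b : Fin m → ℕ} :
    b ∈ MM m ↔ (∀ a, 1 ≤ b a ∧ b a ≤ m + 3) ∧ Monotone b := by
  classical simp [MM]

theorem YD_inj {m : ℕ} {b b' : Fin m → ℕ} (h : YD b = YD b') : b = b' := by
  have key : ∀ {b b' : Fin m → ℕ}, YD b = YD b' → ∀ a, b a ≤ b' a := by
    intro b b' h a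
    rcases Nat.eq_zero_or_pos (b a) with h0 | h0
    · omega
    · have h1 : (b a, m - (a : ℕ)) ∈ YD b := mem_YD'.2 ⟨h0, le_rfl⟩
      rw [h] at h1
      exact (mem_YD'.1 h1).2
  funext a
  exact le_antisymm (key h a) (key h.symm a)

theorem low_up {m : ℕ} {L : Finset (ℕ × ℕ)} (hL : Low adj (Dn (m + 3)) L) {j : ℕ}
    (hj : 1 ≤ j) (hj' : j ≤ m + 1) (i : ℕ) (h : (i, j) ∈ L) (hi : i ≤ m + 3) (i' : ℕ)
    (h1 : 1 ≤ i') (h2 : i' ≤ i) : (i', j) ∈ L := by
  induction i with
  | zero => omega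
  | succ i ih =>
    rcases Nat.lt_or_ge i i' with h3 | h3
    · have : i' = i + 1 := by omega
      subst this
      exact h
    · exact ih (hL _ h (i, j) (mem_Dn.2 (by omega)) (Or.inr rfl)) (by omega) h3

theorem low_left {m : ℕ} {L : Finset (ℕ × ℕ)} (hL : Low adj (Dn (m + 3)) L) {i : ℕ}
    (hi : 1 ≤ i) (hi' : i ≤ m + 3) (j : ℕ) (h : (i, j) ∈ L) (hj : j ≤ m + 3)
    (hij : 2 ≤ i ∨ j ≤ m + 2) (j' : ℕ) (h1 : 1 ≤ j') (h2 : j' ≤ j) : (i, j') ∈ L := by
  induction j with
  | zero => omega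
  | succ j ih =>
    rcases Nat.lt_or_ge j j' with h3 | h3
    · have : j' = j + 1 := by omega
      subst this
      exact h
    · exact ih (hL _ h (i, j) (mem_Dn.2 (by omega)) (Or.inl rfl)) (by omega) (by omega) h3

theorem piv_Dn (m : ℕ) : piv adj (Dn (m + 3)) (1, m + 1) = (MM m).image YD := by
  classical
  ext L
  rw [mem_piv, mem_image]
  constructor
  · rintro ⟨h1, h2, h3⟩
    have hD : ∀ i j, (i, j) ∈ L → (1 ≤ i ∧ i ≤ m + 3 ∧ 1 ≤ j ∧ j ≤ m + 3 ∧ (2 ≤ i ∨ j ≤ m + 1)) ∧
        ¬ (i = 1 ∧ j = m + 1) := by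
      intro i j h
      have := h1 h
      rw [mem_erase, mem_Dn] at this
      refine ⟨this.2, ?_⟩
      rintro ⟨rfl, rfl⟩
      exact this.1 rfl
    have hcL : (1, m + 1) ∉ L := fun h => (hD _ _ h).2 ⟨rfl, rfl⟩
    have hcol : ∀ i j, (i, j) ∈ L → j ≤ m := by
      intro i j h
      by_contra hj
      obtain ⟨h4, h5⟩ := hD i j h
      by_cases hjm : j = m + 1
      · subst hjm
        exact hcL (low_up h2 (by omega) le_rfl i h (by omega) 1 le_rfl (by omega))
      · have : (i, m + 1) ∈ L := low_left h2 (by omega) (by omega) j h (by omega) (by omega)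
          (m + 1) (by omega) (by omega)
        exact hcL (low_up h2 (by omega) le_rfl i this (by omega) 1 le_rfl (by omega))
    have hrow : ∀ j, 1 ≤ j → j ≤ m → (1, j) ∈ L := by
      intro j hj hjm
      have h4 : (1, m) ∈ L := by
        have := h3 (1, m + 1) (mem_insert_self _ _) (1, m) (mem_Dn.2 (by omega)) (Or.inl rfl)
        rw [mem_insert] at this
        rcases this with h | h
        · have := (Prod.mk.inj h).2
          omega
        · exact h
      exact low_left h2 le_rfl (by omega) m h4 (by omega) (by omega) j hj hjm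
    let b : Fin m → ℕ := fun a => Nat.findGreatest (fun i => (i, m - (a : ℕ)) ∈ L) (m + 3)
    have hb1 : ∀ a, b a ≤ m + 3 := fun a => Nat.findGreatest_le _
    have hb2 : ∀ (a : Fin m) (i : ℕ), (i, m - (a : ℕ)) ∈ L → i ≤ b a := by
      intro a i h
      exact Nat.le_findGreatest (hD _ _ h).1.2.1 h
    have hb3 : ∀ a : Fin m, 1 ≤ b a := by
      intro a
      have := a.2
      exact hb2 a 1 (hrow _ (by omega) (by omega))
    have hb4 : ∀ a : Fin m, (b a, m - (a : ℕ)) ∈ L := by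
      intro a
      have ha := a.2
      exact Nat.findGreatest_spec (P := fun i => (i, m - (a : ℕ)) ∈ L)
        (m := 1) (by omega) (hrow _ (by omega) (by omega))
    refine ⟨b, mem_MM.2 ⟨fun a => ⟨hb3 a, hb1 a⟩, ?_⟩, ?_⟩
    · intro a a' haa'
      have h5 : (a : ℕ) ≤ a' := haa'
      have h6 := a.2
      have h7 := a'.2
      have := hb1 a
      have := hb3 a
      exact hb2 a' _ (low_left h2 (by omega) (by omega) _ (hb4 a) (by omega) (by omega) _
        (by omega) (by omega))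
    · ext ⟨i, j⟩
      rw [mem_YD]
      constructor
      · rintro ⟨a, h4, h5, h6⟩
        simp only at h4 h5 h6
        subst h4
        have := a.2
        exact low_up h2 (by omega) (by omega) _ (hb4 a) (hb1 a) i h5 h6
      · intro h
        have h4 := (hD i j h).1
        have h5 := hcol i j h
        have h6 : m - j < m := by omega
        have h7 : m - (m - j) = j := by omega
        refine ⟨⟨m - j, h6⟩, h7.symm, h4.1, hb2 ⟨m - j, h6⟩ i ?_⟩
        simp only [h7]
        exact h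
  · rintro ⟨b, hb, rfl⟩
    obtain ⟨hb1, hb2⟩ := mem_MM.1 hb
    have hsub : ∀ i j, (i, j) ∈ YD b → (i, j) ∈ Dn (m + 3) ∧ j ≤ m := by
      intro i j h
      obtain ⟨a, h1, h2, h3⟩ := mem_YD.1 h
      simp only at h1 h2 h3
      have := a.2
      have := hb1 a
      rw [mem_Dn]
      omega
    have hlow : Low adj (Dn (m + 3)) (YD b) := by
      rintro ⟨i, j⟩ h ⟨i', j'⟩ hy hadj
      obtain ⟨a, h1, h2, h3⟩ := mem_YD.1 h
      rw [mem_Dn] at hy
      simp only [adj, Prod.mk.injEq] at h1 h2 h3 hadj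
      have := a.2
      rw [mem_YD]
      simp only
      rcases hadj with ⟨h4, h5⟩ | ⟨h4, h5⟩
      · have h6 : (a : ℕ) + 1 < m := by omega
        have h7 : b a ≤ b ⟨a + 1, h6⟩ := hb2 (by
          rw [Fin.le_def]
          simp only
          omega)
        exact ⟨⟨a + 1, h6⟩, by simp only; omega, by omega, by omega⟩
      · exact ⟨a, by omega, by omega, by omega⟩
    refine ⟨?_, hlow, ?_⟩
    · rintro ⟨i, j⟩ h
      obtain ⟨h1, h2⟩ := hsub i j h
      refine mem_erase.2 ⟨fun h3 => ?_, h1⟩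
      have := (Prod.mk.inj h3).2
      omega
    · rintro ⟨i, j⟩ h ⟨i', j'⟩ hy hadj
      rcases mem_insert.1 h with h1 | h1
      · rw [mem_Dn] at hy
        simp only [adj, Prod.mk.injEq] at h1 hadj
        have h2 : 0 < m := by omega
        refine mem_insert_of_mem (mem_YD.2 ⟨⟨0, h2⟩, ?_, ?_, ?_⟩)
        · simp only
          omega
        · exact hy.1
        · have := (hb1 ⟨0, h2⟩).1
          simp only
          omega
      · exact mem_insert_of_mem (hlow _ h1 _ hy hadj)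

/-- heights of the rotated complement -/
def cb {m : ℕ} (b : Fin m → ℕ) (t : Fin (m + 3)) : ℕ :=
  if h : (t : ℕ) < m then m + 3 - b ⟨m - 1 - t, by omega⟩ else m + 2

theorem compl_Dn {m : ℕ} (b : Fin m → ℕ) (hb : b ∈ MM m) :
    e adj ((Dn (m + 3)).erase (1, m + 1) \ YD b) = e adj (YD (cb b)) := by
  classical
  obtain ⟨hb1, hb2⟩ := mem_MM.1 hb
  set S' := (Dn (m + 3)).erase (1, m + 1) \ YD b with hS'
  have hmem : ∀ i j, (i, j) ∈ S' ↔ (1 ≤ i ∧ i ≤ m + 3 ∧ 1 ≤ j ∧ j ≤ m + 3) ∧ (j ≤ m ∨ 2 ≤ i) ∧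
      ∀ a : Fin m, j = m - (a : ℕ) → b a < i := by
    intro i j
    rw [hS', mem_sdiff, mem_erase, mem_Dn, mem_YD]
    simp only [ne_eq, Prod.mk.injEq, not_exists, not_and, not_le]
    constructor
    · rintro ⟨⟨h1, h2⟩, h3⟩
      exact ⟨by omega, by omega, fun a ha => h3 a ha h2.1⟩
    · rintro ⟨h1, h2, h3⟩
      exact ⟨⟨by omega, by omega⟩, fun a ha _ => h3 a ha⟩
  let f : ℕ × ℕ → ℕ × ℕ := fun p => (m + 4 - p.1, m + 4 - p.2)
  have hf : Set.InjOn f S' := by
    rintro ⟨i, j⟩ h1 ⟨i', j'⟩ h2 h3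
    rw [mem_coe, hmem] at h1 h2
    simp only [f, Prod.mk.injEq] at h3 ⊢
    omega
  have himg : S'.image f = YD (cb b) := by
    ext ⟨i, j⟩
    rw [mem_image, mem_YD]
    constructor
    · rintro ⟨⟨i', j'⟩, h1, h2⟩
      rw [hmem] at h1
      simp only [f, Prod.mk.injEq] at h2
      obtain ⟨h3, h4, h5⟩ := h1
      have h6 : j' - 1 < m + 3 := by omega
      refine ⟨⟨j' - 1, h6⟩, by simp only; omega, by simp only; omega, ?_⟩
      simp only [cb]
      split_ifs with h7
      · have := h5 ⟨m - 1 - (j' - 1), by omega⟩ (by simp only; omega)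
        have := hb1 ⟨m - 1 - (j' - 1), by omega⟩
        omega
      · omega
    · rintro ⟨t, h1, h2, h3⟩
      simp only at h1 h2 h3
      have ht := t.2
      have h5 : i ≤ m + 2 ∧ ((t : ℕ) < m → ∀ a : Fin m, (t : ℕ) + 1 = m - (a : ℕ) →
          b a < m + 4 - i) := by
        simp only [cb] at h3
        split_ifs at h3 with h7
        · have h8 := hb1 ⟨m - 1 - t, by omega⟩
          refine ⟨by omega, fun _ a ha => ?_⟩
          have : a = ⟨m - 1 - t, by omega⟩ := Fin.ext (by simp only; omega)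
          rw [this]
          omega
        · exact ⟨h3, fun h => absurd h h7⟩
      refine ⟨(m + 4 - i, t + 1), ?_, ?_⟩
      · rw [hmem]
        refine ⟨by omega, by omega, fun a ha => ?_⟩
        have := a.2
        exact h5.2 (by omega) a ha
      · simp only [f, Prod.mk.injEq]
        omega
  rw [← himg, e_image (fun p q => adj q p) adj f S' hf, e_swap adj adj_irrefl]
  rintro ⟨i, j⟩ h1 ⟨i', j'⟩ h2
  rw [hmem] at h1 h2
  simp only [f, adj, Prod.mk.injEq]
  omega

/-- **Decomposition.** -/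
theorem e_Dn (m : ℕ) : e adj (Dn (m + 3)) =
    ∑ b ∈ MM m, e adj (YD b) * e adj (YD (cb b)) := by
  classical
  rw [pivot adj adj_irrefl (Dn (m + 3)) (1, m + 1) (mem_Dn.2 (by omega)), piv_Dn,
    sum_image (fun b _ b' _ h => YD_inj h)]
  refine sum_congr rfl fun b hb => ?_
  rw [compl_Dn b hb]

end Pool.Agent.P8H42.Trunc
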