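import Pool.Agent.P8H42.Trunc.D

/-!
The count of the truncated square as a sum over increasing sequences.
-/

set_option autoImplicit false
set_option linter.unusedSectionVars false

namespace Pool.Agent.P8H42.Trunc

open Finset

theorem V_ite {m : ℕ} (x : Fin m → ℚ) :
    V x = ∏ i, ∏ j, if i < j then x j - x i else 1 := by
  unfold V
  refine prod_congr rfl fun i _ => ?_
  rw [← prod_filter]
  refine prod_congr ?_ fun _ _ => rfl
  ext j
  simp

theorem V_succ {m : ℕ} (x : Fin (m + 1) → ℚ) :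
    V x = V (fun i : Fin m => x i.castSucc) * ∏ i : Fin m, (x (Fin.last m) - x i.castSucc) := by
  rw [V_ite, V_ite, Fin.prod_univ_castSucc]
  have h1 : ∏ j, (if Fin.last m < j then x j - x (Fin.last m) else 1) = 1 := by
    refine prod_eq_one fun j _ => ?_
    rw [if_neg (not_lt.2 (Fin.le_last j))]
  rw [h1, mul_one, ← prod_mul_distrib]
  refine prod_congr rfl fun i _ => ?_
  rw [Fin.prod_univ_castSucc]
  simp only [Fin.castSucc_lt_castSucc_iff, Fin.castSucc_lt_last, if_true]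

theorem V_shift {m : ℕ} (x : Fin m → ℚ) (c : ℚ) : V (fun i => x i + c) = V x := by
  unfold V
  refine prod_congr rfl fun i _ => prod_congr rfl fun j _ => ?_
  ring

theorem V_rev {m : ℕ} (x : Fin m → ℚ) (c : ℚ) : V (fun i => c - x (Fin.rev i)) = V x := by
  rw [V_ite, V_ite]
  have h1 : ∏ i : Fin m, ∏ j : Fin m,
      (if i < j then (c - x (Fin.rev j)) - (c - x (Fin.rev i)) else 1) =
      ∏ i : Fin m, ∏ j : Fin m, (if Fin.rev i < Fin.rev j then x i - x j else 1) := by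
    rw [← Equiv.prod_comp Fin.revPerm]
    refine prod_congr rfl fun i _ => ?_
    rw [← Equiv.prod_comp Fin.revPerm]
    refine prod_congr rfl fun j _ => ?_
    simp only [Fin.revPerm_apply, Fin.rev_rev]
    congr 1
    ring
  rw [h1, prod_comm]
  refine prod_congr rfl fun i _ => prod_congr rfl fun j _ => ?_
  simp only [Fin.rev_lt_rev]

/-- the weight -/
def wt {m : ℕ} (l : Fin m → ℕ) : ℚ :=
  V (fun a => (l a : ℚ)) ^ 2 * ∏ a : Fin m,
    (((l a : ℚ) + 2) * ((l a : ℚ) + 3) / (((l a).factorial : ℚ) * ((2 * m + 1 - l a).factorial : ℚ)))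

/-- the shifted heights -/
def lb {m : ℕ} (b : Fin m → ℕ) (a : Fin m) : ℕ := b a + (a : ℕ) - 1

theorem card_YD_cb {m : ℕ} (b : Fin m → ℕ) (hb : b ∈ MM m) :
    (∑ t, cb b t) + ∑ a, b a = m ^ 2 + 6 * m + 6 := by
  obtain ⟨hb1, hb2⟩ := mem_MM.1 hb
  rw [Fin.sum_univ_castSucc, Fin.sum_univ_castSucc, Fin.sum_univ_castSucc]
  have h1 : ∑ i : Fin m, cb b i.castSucc.castSucc.castSucc = ∑ i : Fin m, (m + 3 - b i) := by
    rw [← Equiv.sum_comp Fin.revPerm (fun i : Fin m => m + 3 - b i)]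
    refine sum_congr rfl fun i _ => ?_
    have hi := i.2
    simp only [cb, Fin.val_castSucc, hi, dif_pos, Fin.revPerm_apply]
    congr 2
    apply Fin.ext
    simp only [Fin.val_rev]
    omega
  have h2 : (∑ i : Fin m, (m + 3 - b i)) + ∑ a, b a = m * (m + 3) := by
    rw [← sum_add_distrib]
    have : ∀ i ∈ (univ : Finset (Fin m)), m + 3 - b i + b i = m + 3 := by
      intro i _
      have := (hb1 i).2
      omega
    rw [sum_congr rfl this, sum_const, card_univ, Fintype.card_fin, smul_eq_mul]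
  have h3 : cb b (Fin.last m).castSucc.castSucc = m + 2 := by
    simp [cb]
  have h4 : cb b (Fin.last (m + 1)).castSucc = m + 2 := by
    simp [cb]
  have h5 : cb b (Fin.last (m + 1 + 1)) = m + 2 := by
    simp only [cb, Fin.val_last]
    rw [dif_neg (by omega)]
  rw [h1, h3, h4, h5]
  nlinarith [h2]

theorem e_cb {m : ℕ} (b : Fin m → ℕ) (hb : b ∈ MM m) :
    (e adj (YD (cb b)) : ℚ) * ((∏ a : Fin m, ((2 * m + 1 - lb b a).factorial : ℚ)) *
      ((2 * m + 2).factorial * (2 * m + 3).factorial * (2 * m + 4).factorial)) =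
      ((∑ t, cb b t).factorial : ℚ) * (V (fun a => (lb b a : ℚ)) * (2 * ∏ a : Fin m,
        (((lb b a : ℚ) + 1) * ((lb b a : ℚ) + 2) * ((lb b a : ℚ) + 3)))) := by
  obtain ⟨hb1, hb2⟩ := mem_MM.1 hb
  have hmono : Monotone (cb b) := by
    intro s t hst
    have h0 : (s : ℕ) ≤ t := hst
    simp only [cb]
    split_ifs with h1 h2 h3
    · have h3 : b ⟨m - 1 - t, by omega⟩ ≤ b ⟨m - 1 - s, by omega⟩ := hb2 (by
        rw [Fin.le_def]
        simp only
        omega)
      omega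
    · have := (hb1 ⟨m - 1 - s, by omega⟩).1
      omega
    · omega
    · exact le_rfl
  have hlb : ∀ a : Fin m, lb b a ≤ 2 * m + 1 := by
    intro a
    have := a.2
    have := hb1 a
    simp only [lb]
    omega
  have h := e_YD (cb b) hmono
  have v1 : ∀ i : Fin m, cb b i.castSucc.castSucc.castSucc + (i : ℕ) =
      2 * m + 1 - lb b (Fin.rev i) := by
    intro i
    have hi := i.2
    simp only [cb, Fin.val_castSucc, hi, dif_pos, lb, Fin.val_rev]
    have h1 : (⟨m - 1 - i, by omega⟩ : Fin m) = Fin.rev i := by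
      apply Fin.ext
      simp only [Fin.val_rev]
      omega
    rw [h1]
    have := hb1 (Fin.rev i)
    omega
  have v2 : cb b (Fin.last m).castSucc.castSucc = m + 2 := by
    simp [cb]
  have v3 : cb b (Fin.last (m + 1)).castSucc = m + 2 := by
    simp [cb]
  have v4 : cb b (Fin.last (m + 1 + 1)) = m + 2 := by
    simp only [cb, Fin.val_last]
    rw [dif_neg (by omega)]
  have p1 : ∏ t : Fin (m + 3), ((cb b t + (t : ℕ)).factorial : ℚ) =
      (∏ a : Fin m, ((2 * m + 1 - lb b a).factorial : ℚ)) *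
      ((2 * m + 2).factorial * (2 * m + 3).factorial * (2 * m + 4).factorial) := by
    rw [Fin.prod_univ_castSucc, Fin.prod_univ_castSucc, Fin.prod_univ_castSucc,
      ← Equiv.prod_comp Fin.revPerm (fun a : Fin m => ((2 * m + 1 - lb b a).factorial : ℚ))]
    simp only [Fin.val_castSucc, v1, v2, v3, v4, Fin.val_last, Fin.revPerm_apply]
    have e1 : m + 2 + m = 2 * m + 2 := by ring
    have e2 : m + 2 + (m + 1) = 2 * m + 3 := by ring
    have e3 : m + 2 + (m + 1 + 1) = 2 * m + 4 := by ring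
    rw [e1, e2, e3]
    ring
  have p2 : V (fun t : Fin (m + 3) => (cb b t : ℚ) + ((t : ℕ) : ℚ)) =
      V (fun a => (lb b a : ℚ)) * (2 * ∏ a : Fin m,
        (((lb b a : ℚ) + 1) * ((lb b a : ℚ) + 2) * ((lb b a : ℚ) + 3))) := by
    have w1 : ∀ i : Fin m, (cb b i.castSucc.castSucc.castSucc : ℚ) + ((i : ℕ) : ℚ) =
        ((2 * m + 1 : ℕ) : ℚ) - (lb b (Fin.rev i) : ℚ) := by
      intro i
      rw [← Nat.cast_add, v1, Nat.cast_sub (hlb _)]
    rw [V_succ, V_succ, V_succ]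
    simp only [Fin.val_castSucc, w1, v2, v3, v4, Fin.val_last, Fin.prod_univ_castSucc]
    rw [V_rev (fun i : Fin m => (lb b i : ℚ)) ((2 * m + 1 : ℕ) : ℚ)]
    have q1 : ∏ i : Fin m, (((m + 2 : ℕ) : ℚ) + (m : ℚ) -
        (((2 * m + 1 : ℕ) : ℚ) - (lb b (Fin.rev i) : ℚ))) = ∏ i : Fin m, ((lb b i : ℚ) + 1) := by
      rw [← Equiv.prod_comp Fin.revPerm (fun i : Fin m => ((lb b i : ℚ) + 1))]
      refine prod_congr rfl fun i _ => ?_
      rw [Fin.revPerm_apply]
      push_cast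
      ring
    have q2 : ∏ i : Fin m, (((m + 2 : ℕ) : ℚ) + ((m + 1 : ℕ) : ℚ) -
        (((2 * m + 1 : ℕ) : ℚ) - (lb b (Fin.rev i) : ℚ))) = ∏ i : Fin m, ((lb b i : ℚ) + 2) := by
      rw [← Equiv.prod_comp Fin.revPerm (fun i : Fin m => ((lb b i : ℚ) + 2))]
      refine prod_congr rfl fun i _ => ?_
      rw [Fin.revPerm_apply]
      push_cast
      ring
    have q3 : ∏ i : Fin m, (((m + 2 : ℕ) : ℚ) + ((m + 1 + 1 : ℕ) : ℚ) -
        (((2 * m + 1 : ℕ) : ℚ) - (lb b (Fin.rev i) : ℚ))) = ∏ i : Fin m, ((lb b i : ℚ) + 3) := by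
      rw [← Equiv.prod_comp Fin.revPerm (fun i : Fin m => ((lb b i : ℚ) + 3))]
      refine prod_congr rfl fun i _ => ?_
      rw [Fin.revPerm_apply]
      push_cast
      ring
    rw [q1, q2, q3, prod_mul_distrib, prod_mul_distrib]
    push_cast
    ring
  rw [p1, p2] at h
  exact h

theorem e_bb {m : ℕ} (b : Fin m → ℕ) (hb : b ∈ MM m) :
    (e adj (YD b) : ℚ) * (∏ a : Fin m, (((lb b a : ℚ) + 1) * ((lb b a).factorial : ℚ))) =
      ((∑ a, b a).factorial : ℚ) * V (fun a => (lb b a : ℚ)) := by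
  obtain ⟨hb1, hb2⟩ := mem_MM.1 hb
  have h := e_YD b hb2
  have h1 : ∀ a : Fin m, b a + (a : ℕ) = lb b a + 1 := by
    intro a
    have := hb1 a
    simp only [lb]
    omega
  have h2 : (fun a : Fin m => (b a : ℚ) + ((a : ℕ) : ℚ)) = fun a => (lb b a : ℚ) + 1 := by
    funext a
    have := h1 a
    exact_mod_cast this
  rw [h2, V_shift] at h
  rw [← h]
  congr 1
  refine prod_congr rfl fun a _ => ?_
  rw [h1, Nat.factorial_succ]
  push_cast
  ring

theorem term_eq {m : ℕ} (b : Fin m → ℕ) (hb : b ∈ MM m) :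
    (e adj (YD b) : ℚ) * (e adj (YD (cb b)) : ℚ) =
    2 / ((2 * m + 2).factorial * (2 * m + 3).factorial * (2 * m + 4).factorial : ℚ) *
      (((∑ a, b a).factorial : ℚ) * ((∑ t, cb b t).factorial : ℚ) * wt (lb b)) := by
  have h1 := e_bb b hb
  have h2 := e_cb b hb
  have hf : ∀ k : ℕ, ((k.factorial : ℕ) : ℚ) ≠ 0 := fun k => by
    exact_mod_cast Nat.factorial_ne_zero k
  have p1 : ∏ a : Fin m, ((lb b a : ℚ) + 1) ≠ 0 := by
    refine prod_ne_zero_iff.2 fun a _ => ?_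
    positivity
  have p2 : ∏ a : Fin m, ((lb b a).factorial : ℚ) ≠ 0 := prod_ne_zero_iff.2 fun a _ => hf _
  have p3 : ∏ a : Fin m, ((2 * m + 1 - lb b a).factorial : ℚ) ≠ 0 :=
    prod_ne_zero_iff.2 fun a _ => hf _
  rw [prod_mul_distrib] at h1
  simp only [prod_mul_distrib] at h2
  have h1' : (e adj (YD b) : ℚ) = ((∑ a, b a).factorial : ℚ) * V (fun a => (lb b a : ℚ)) /
      ((∏ a : Fin m, ((lb b a : ℚ) + 1)) * ∏ a : Fin m, ((lb b a).factorial : ℚ)) := by
    rw [eq_div_iff (mul_ne_zero p1 p2), h1]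
  have h2' : (e adj (YD (cb b)) : ℚ) = ((∑ t, cb b t).factorial : ℚ) *
      (V (fun a => (lb b a : ℚ)) * (2 * ((∏ a : Fin m, ((lb b a : ℚ) + 1)) *
        (∏ a : Fin m, ((lb b a : ℚ) + 2)) * ∏ a : Fin m, ((lb b a : ℚ) + 3)))) /
      ((∏ a : Fin m, ((2 * m + 1 - lb b a).factorial : ℚ)) *
      ((2 * m + 2).factorial * (2 * m + 3).factorial * (2 * m + 4).factorial)) := by
    rw [eq_div_iff (mul_ne_zero p3 (mul_ne_zero (mul_ne_zero (hf _) (hf _)) (hf _))), h2]
  rw [h1', h2', wt, prod_div_distrib, prod_mul_distrib, prod_mul_distrib]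
  have f1 := hf (2 * m + 2)
  have f2 := hf (2 * m + 3)
  have f3 := hf (2 * m + 4)
  field_simp

end Pool.Agent.P8H42.Trunc
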