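import Pool.Agent.P8H42.Trunc.E

/-!
Symmetrisation and a bordered Cauchy-Binet formula.
-/

set_option autoImplicit false
set_option linter.unusedSectionVars false

namespace Pool.Agent.P8H42.Trunc

open Finset

theorem sm_gap {m : ℕ} {l : Fin m → ℕ} (hl : StrictMono l) (k : ℕ) :
    ∀ a a' : Fin m, (a' : ℕ) = a + k → l a + k ≤ l a' := by
  induction k with
  | zero =>
    intro a a' h
    have : a = a' := Fin.ext (by omega)
    rw [this]
    omega
  | succ k ih =>
    intro a a' h
    have ha' := a'.2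
    have h1 := ih a ⟨a + k, by omega⟩ rfl
    have h2 : l ⟨a + k, by omega⟩ < l a' := hl (by
      rw [Fin.lt_def]
      simp only
      omega)
    omega

theorem lb_sm {m : ℕ} {b : Fin m → ℕ} (hb : b ∈ MM m) : StrictMono (lb b) := by
  obtain ⟨hb1, hb2⟩ := mem_MM.1 hb
  intro a a' h
  have h1 : (a : ℕ) < a' := h
  have h2 := hb2 h.le
  have := hb1 a
  simp only [lb]
  omega

theorem lb_lt {m : ℕ} {b : Fin m → ℕ} (hb : b ∈ MM m) (a : Fin m) : lb b a < 2 * m + 2 := by
  obtain ⟨hb1, hb2⟩ := mem_MM.1 hb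
  have := hb1 a
  have := a.2
  simp only [lb]
  omega

theorem symm_sum {m : ℕ} (F : (Fin m → ℕ) → ℚ)
    (hs : ∀ (l : Fin m → ℕ) (σ : Equiv.Perm (Fin m)), F (l ∘ σ) = F l)
    (h0 : ∀ l : Fin m → ℕ, ¬ Function.Injective l → F l = 0) :
    ∑ l ∈ Fintype.piFinset (fun _ : Fin m => range (2 * m + 2)), F l =
      (m.factorial : ℚ) * ∑ b ∈ MM m, F (lb b) := by
  classical
  have h1 : ∑ l ∈ Fintype.piFinset (fun _ : Fin m => range (2 * m + 2)), F l =
      ∑ l ∈ (Fintype.piFinset (fun _ : Fin m => range (2 * m + 2))).filter Function.Injective,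
        F l := by
    rw [sum_filter]
    refine sum_congr rfl fun l _ => ?_
    split_ifs with h
    · rfl
    · exact h0 l h
  have h2 : (m.factorial : ℚ) * ∑ b ∈ MM m, F (lb b) =
      ∑ p ∈ MM m ×ˢ (univ : Finset (Equiv.Perm (Fin m))), F (lb p.1 ∘ p.2) := by
    rw [sum_product, mul_sum]
    refine sum_congr rfl fun b _ => ?_
    simp_rw [hs]
    rw [sum_const, card_univ, Fintype.card_perm, Fintype.card_fin, nsmul_eq_mul]
  rw [h1, h2]
  symm
  refine sum_bij (fun p _ => lb p.1 ∘ p.2) ?_ ?_ ?_ ?_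
  · rintro ⟨b, σ⟩ hp
    have hb := (mem_product.1 hp).1
    rw [mem_filter, Fintype.mem_piFinset]
    refine ⟨fun a => mem_range.2 (lb_lt hb _), (lb_sm hb).injective.comp σ.injective⟩
  · rintro ⟨b, σ⟩ hp ⟨b', σ'⟩ hp' h
    have hb := (mem_product.1 hp).1
    have hb' := (mem_product.1 hp').1
    simp only at h hb hb'
    have h3 : Set.range (lb b) = Set.range (lb b') := by
      have := congrArg Set.range h
      rwa [Set.range_comp, Set.range_comp, σ.surjective.range_eq, σ'.surjective.range_eq,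
        Set.image_univ, Set.image_univ] at this
    have h4 := ((lb_sm hb).range_inj (lb_sm hb')).1 h3
    have h5 : b = b' := by
      funext a
      have h6 := congrFun h4 a
      have h7 := ((mem_MM.1 hb).1 a).1
      have h8 := ((mem_MM.1 hb').1 a).1
      simp only [lb] at h6
      omega
    subst h5
    have h9 : σ = σ' := by
      ext a
      have := congrFun h a
      exact congrArg Fin.val ((lb_sm hb).injective this)
    rw [h9]
  · intro l hl
    rw [mem_filter, Fintype.mem_piFinset] at hl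
    obtain ⟨hl1, hl2⟩ := hl
    have hsm : StrictMono (l ∘ Tuple.sort l) :=
      (Tuple.monotone_sort l).strictMono_of_injective (hl2.comp (Tuple.sort l).injective)
    have hlt : ∀ a, (l ∘ Tuple.sort l) a < 2 * m + 2 := fun a => mem_range.1 (hl1 _)
    have hge : ∀ a : Fin m, (a : ℕ) ≤ (l ∘ Tuple.sort l) a := by
      intro a
      have ha := a.2
      have := sm_gap hsm a ⟨0, by omega⟩ a (by simp)
      omega
    have hle : ∀ a : Fin m, (l ∘ Tuple.sort l) a + 1 ≤ m + 3 + a := by
      intro a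
      have ha := a.2
      have h3 := sm_gap hsm (m - 1 - a) a ⟨m - 1, by omega⟩ (by simp only; omega)
      have h4 := hlt ⟨m - 1, by omega⟩
      omega
    have hb : (fun a : Fin m => (l ∘ Tuple.sort l) a + 1 - (a : ℕ)) ∈ MM m := by
      rw [mem_MM]
      refine ⟨fun a => ?_, fun a a' haa' => ?_⟩
      · have := hge a
        have := hle a
        simp only at *
        omega
      · have h5 : (a : ℕ) ≤ a' := haa'
        have h3 := sm_gap hsm (a' - a) a a' (by omega)
        have := hge a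
        simp only at *
        omega
    refine ⟨(_, (Tuple.sort l).symm), mem_product.2 ⟨hb, mem_univ _⟩, ?_⟩
    have h6 : lb (fun a : Fin m => (l ∘ Tuple.sort l) a + 1 - (a : ℕ)) = l ∘ Tuple.sort l := by
      funext a
      have := hge a
      simp only [lb] at *
      omega
    simp only [h6]
    funext a
    simp
  · intro p _
    rfl

theorem V_perm {m : ℕ} (x : Fin m → ℚ) (σ : Equiv.Perm (Fin m)) :
    V (x ∘ σ) = ((Equiv.Perm.sign σ : ℤ) : ℚ) * V x := by
  rw [V_det, V_det, ← Matrix.det_permute σ]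
  rfl

/-- **Bordered Cauchy-Binet.** -/
theorem gcb {m : ℕ} (I : Finset ℕ) (A : Fin m → ℕ → ℚ) (B : ℕ → (Fin m ⊕ Fin 2) → ℚ)
    (Cc : Fin 2 → (Fin m ⊕ Fin 2) → ℚ) :
    ∑ l ∈ Fintype.piFinset (fun _ : Fin m => I), (Matrix.of fun i j : Fin m => A i (l j)).det *
      (Matrix.of (Sum.elim (fun i j => B (l i) j) Cc)).det =
    (m.factorial : ℚ) *
      (Matrix.of (Sum.elim (fun i j => ∑ k ∈ I, A i k * B k j) Cc)).det := by
  classical
  -- first determinant expanded
  have h1 : ∀ l : Fin m → ℕ, (Matrix.of fun i j : Fin m => A i (l j)).det *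
      (Matrix.of (Sum.elim (fun i j => B (l i) j) Cc)).det =
      ∑ σ : Equiv.Perm (Fin m), (∏ i, A i ((l ∘ σ.symm) i)) *
        (Matrix.of (Sum.elim (fun i j => B ((l ∘ σ.symm) i) j) Cc)).det := by
    intro l
    rw [Matrix.det_apply', sum_mul]
    refine sum_congr rfl fun σ _ => ?_
    have e1 : ∏ i, A i ((l ∘ σ.symm) i) = ∏ j, A (σ j) (l j) := by
      rw [← Equiv.prod_comp σ (fun i => A i ((l ∘ σ.symm) i))]
      refine prod_congr rfl fun j _ => ?_
      simp
    have e2 : (Matrix.of (Sum.elim (fun i j => B ((l ∘ σ.symm) i) j) Cc)).det =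
        ((Equiv.Perm.sign σ : ℤ) : ℚ) * (Matrix.of (Sum.elim (fun i j => B (l i) j) Cc)).det := by
      have := Matrix.det_permute (Equiv.Perm.sumCongr σ.symm (1 : Equiv.Perm (Fin 2)))
        (Matrix.of (Sum.elim (fun i j => B (l i) j) Cc))
      rw [Equiv.Perm.sign_sumCongr, Equiv.Perm.sign_one, mul_one, Equiv.Perm.sign_symm] at this
      rw [← this]
      congr 1
      ext r j
      rcases r with i | s
      · rfl
      · rfl
    rw [e1, e2]
    simp only [Matrix.of_apply]
    ring
  have h2 : ∑ l ∈ Fintype.piFinset (fun _ : Fin m => I),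
      (Matrix.of fun i j : Fin m => A i (l j)).det *
      (Matrix.of (Sum.elim (fun i j => B (l i) j) Cc)).det =
      (m.factorial : ℚ) * ∑ l ∈ Fintype.piFinset (fun _ : Fin m => I), (∏ i, A i (l i)) *
        (Matrix.of (Sum.elim (fun i j => B (l i) j) Cc)).det := by
    rw [sum_congr rfl fun l _ => h1 l, sum_comm]
    have e1 : ∀ σ : Equiv.Perm (Fin m), ∑ l ∈ Fintype.piFinset (fun _ : Fin m => I),
        (∏ i, A i ((l ∘ σ.symm) i)) *
        (Matrix.of (Sum.elim (fun i j => B ((l ∘ σ.symm) i) j) Cc)).det =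
        ∑ l ∈ Fintype.piFinset (fun _ : Fin m => I), (∏ i, A i (l i)) *
        (Matrix.of (Sum.elim (fun i j => B (l i) j) Cc)).det := by
      intro σ
      refine sum_bij (fun l _ => l ∘ σ.symm) ?_ ?_ ?_ ?_
      · intro l hl
        rw [Fintype.mem_piFinset] at hl ⊢
        exact fun a => hl _
      · intro l _ l' _ h
        funext a
        have := congrFun h (σ a)
        simpa using this
      · intro l hl
        rw [Fintype.mem_piFinset] at hl
        refine ⟨l ∘ σ, Fintype.mem_piFinset.2 fun a => hl _, ?_⟩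
        funext a
        simp
      · intro l _
        rfl
    rw [sum_congr rfl fun σ _ => e1 σ, sum_const, card_univ, Fintype.card_perm, Fintype.card_fin,
      nsmul_eq_mul]
  rw [h2]
  congr 1
  have h3 : ∀ M : Matrix (Fin m ⊕ Fin 2) (Fin m ⊕ Fin 2) ℚ, M.det =
      ∑ τ : Equiv.Perm (Fin m ⊕ Fin 2), ((Equiv.Perm.sign τ : ℤ) : ℚ) *
        ((∏ i, M (Sum.inl i) (τ (Sum.inl i))) * ∏ s, M (Sum.inr s) (τ (Sum.inr s))) := by
    intro M
    rw [← Matrix.det_transpose, Matrix.det_apply']
    refine sum_congr rfl fun τ _ => ?_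
    rw [Fintype.prod_sum_type]
    rfl
  simp_rw [h3, mul_sum]
  rw [sum_comm]
  refine sum_congr rfl fun τ _ => ?_
  simp only [Matrix.of_apply, Sum.elim_inl, Sum.elim_inr]
  rw [prod_univ_sum, sum_mul, mul_sum]
  refine sum_congr rfl fun l _ => ?_
  rw [prod_mul_distrib]
  ring

end Pool.Agent.P8H42.Trunc
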