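import Pool.Agent.P8H42.Trunc.F

/-!
Evaluation of the sum by the bordered determinant.
-/

set_option autoImplicit false
set_option linter.unusedSectionVars false

namespace Pool.Agent.P8H42.Trunc

open Finset Polynomial

/-- binomial sums -/
def bs (i j N : ℕ) (x y : ℚ) : ℚ := ∑ k ∈ range (N + 1),
  ((k.descFactorial i : ℚ) / (k.factorial : ℚ) * x ^ k) *
    (((N - k).descFactorial j : ℚ) / ((N - k).factorial : ℚ) * y ^ (N - k))

theorem fq (k : ℕ) : ((k.factorial : ℕ) : ℚ) ≠ 0 := by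
  exact_mod_cast Nat.factorial_ne_zero k

theorem bs_zero (N : ℕ) (x y : ℚ) : bs 0 0 N x y = (x + y) ^ N / (N.factorial : ℚ) := by
  rw [bs, add_pow, sum_div]
  refine sum_congr rfl fun k hk => ?_
  have hk' : k ≤ N := by
    have := mem_range.1 hk
    omega
  rw [Nat.cast_choose ℚ hk', Nat.descFactorial_zero, Nat.descFactorial_zero]
  have := fq k
  have := fq N
  have := fq (N - k)
  field_simp
  push_cast
  ring

theorem bs_succ_left (i j N : ℕ) (x y : ℚ) : bs (i + 1) j (N + 1) x y = x * bs i j N x y := by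
  rw [bs, sum_range_succ', bs, mul_sum]
  simp only [Nat.zero_descFactorial_succ, Nat.cast_zero, zero_div, zero_mul, add_zero]
  refine sum_congr rfl fun k _ => ?_
  rw [Nat.succ_descFactorial_succ, Nat.factorial_succ, Nat.add_sub_add_right]
  have := fq k
  have h : ((k : ℚ) + 1) ≠ 0 := by positivity
  have h2 : ((((k + 1) * k.descFactorial i : ℕ)) : ℚ) / (((k + 1) * k.factorial : ℕ) : ℚ) =
      (k.descFactorial i : ℚ) / (k.factorial : ℚ) := by
    push_cast
    field_simp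
  rw [h2]
  ring

theorem bs_succ_right (i j N : ℕ) (x y : ℚ) : bs i (j + 1) (N + 1) x y = y * bs i j N x y := by
  rw [bs, sum_range_succ, bs, mul_sum]
  simp only [Nat.sub_self, Nat.zero_descFactorial_succ, Nat.cast_zero, zero_div, zero_mul,
    mul_zero, add_zero]
  refine sum_congr rfl fun k hk => ?_
  have hk' : k ≤ N := by
    have := mem_range.1 hk
    omega
  rw [Nat.succ_sub hk', Nat.succ_eq_add_one, Nat.succ_descFactorial_succ, Nat.factorial_succ]
  have := fq (N - k)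
  have h : (((N - k : ℕ) : ℚ) + 1) ≠ 0 := by positivity
  have h2 : (((((N - k) + 1) * (N - k).descFactorial j : ℕ)) : ℚ) /
      ((((N - k) + 1) * (N - k).factorial : ℕ) : ℚ) =
      ((N - k).descFactorial j : ℚ) / ((N - k).factorial : ℚ) := by
    push_cast
    field_simp
  rw [h2]
  ring

theorem bs_eq' (K : ℕ) (x y : ℚ) (i j : ℕ) :
    bs i j (K + i + j) x y = x ^ i * y ^ j * ((x + y) ^ K / (K.factorial : ℚ)) := by
  induction i generalizing j with
  | zero =>
    induction j with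
    | zero => rw [add_zero, add_zero, bs_zero]; ring
    | succ j ih =>
      rw [← add_assoc, bs_succ_right, ih]
      ring
  | succ i ih =>
    have : K + (i + 1) + j = (K + i + j) + 1 := by ring
    rw [this, bs_succ_left, ih]
    ring

theorem bs_eq (i j N : ℕ) (x y : ℚ) (hxy : x + y = 1) (h : i + j ≤ N) :
    bs i j N x y = x ^ i * y ^ j / ((N - i - j).factorial : ℚ) := by
  have h1 := bs_eq' (N - i - j) x y i j
  have h2 : N - i - j + i + j = N := by omega
  rw [h2, hxy, one_pow] at h1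
  rw [h1]
  ring

/-- the sign -/
def sg (m : ℕ) : ℚ := ∏ i : Fin m, ∏ _j ∈ Ioi i, (-1 : ℚ)

theorem sg_sq (m : ℕ) : sg m * sg m = 1 := by
  rw [sg, ← prod_mul_distrib]
  refine prod_eq_one fun i _ => ?_
  rw [← prod_mul_distrib]
  refine prod_eq_one fun j _ => ?_
  norm_num

theorem V_neg {m : ℕ} (x : Fin m → ℚ) (c : ℚ) : V (fun i => c - x i) = sg m * V x := by
  unfold V sg
  rw [← prod_mul_distrib]
  refine prod_congr rfl fun i _ => ?_
  rw [← prod_mul_distrib]
  refine prod_congr rfl fun j _ => ?_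
  ring

/-- degree index -/
def dg {m : ℕ} (j : Fin m ⊕ Fin 2) : ℕ := (finSumFinEquiv j : ℕ)

theorem dg_inl {m : ℕ} (j : Fin m) : dg (Sum.inl j : Fin m ⊕ Fin 2) = j := by
  simp [dg]

theorem dg_inr {m : ℕ} (j : Fin 2) : dg (Sum.inr j : Fin m ⊕ Fin 2) = m + j := by
  simp [dg]

theorem V_dg {m : ℕ} (z : Fin m ⊕ Fin 2 → ℕ) :
    (Matrix.of fun r c : Fin m ⊕ Fin 2 => ((z r).descFactorial (dg c) : ℚ)).det =
      V (fun t : Fin (m + 2) => (z (finSumFinEquiv.symm t) : ℚ)) := by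
  rw [V_det, ← Matrix.det_submatrix_equiv_self (finSumFinEquiv : Fin m ⊕ Fin 2 ≃ Fin (m + 2))]
  congr 1
  ext r c
  simp only [Matrix.of_apply, Matrix.submatrix_apply, Equiv.symm_apply_apply,
    descPochhammer_eval_eq_descFactorial]
  rfl

theorem det_A {m : ℕ} (l : Fin m → ℕ) (x : ℚ) :
    (Matrix.of fun i j : Fin m => ((l j).descFactorial i : ℚ) / ((l j).factorial : ℚ) *
      x ^ (l j)).det =
    (∏ j : Fin m, x ^ (l j) / ((l j).factorial : ℚ)) * V (fun j => (l j : ℚ)) := by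
  rw [V_det, ← Matrix.det_transpose (Matrix.of fun i j : Fin m =>
    (descPochhammer ℚ j).eval (l i : ℚ)), ← Matrix.det_mul_row]
  congr 1
  ext i j
  simp only [Matrix.of_apply, Matrix.transpose_apply, descPochhammer_eval_eq_descFactorial]
  ring

theorem det_B {m : ℕ} (l : Fin m → ℕ) (hl : ∀ a, l a < 2 * m + 2) (y : ℚ) :
    (Matrix.of (Sum.elim
      (fun (i : Fin m) (j : Fin m ⊕ Fin 2) => ((2 * m + 1 - l i).descFactorial (dg j) : ℚ) /
        ((2 * m + 1 - l i).factorial : ℚ) * y ^ (2 * m + 1 - l i))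
      (fun (s : Fin 2) (j : Fin m ⊕ Fin 2) => ((2 * m + 3 + (s : ℕ)).descFactorial (dg j) : ℚ) /
        ((2 * m + 3 + (s : ℕ)).factorial : ℚ)))).det =
    (∏ i : Fin m, y ^ (2 * m + 1 - l i) / ((2 * m + 1 - l i).factorial : ℚ)) *
      (1 / (((2 * m + 3).factorial : ℚ) * ((2 * m + 4).factorial : ℚ))) *
      (sg m * V (fun j => (l j : ℚ)) * ∏ i : Fin m, (((l i : ℚ) + 2) * ((l i : ℚ) + 3))) := by
  let v : Fin m ⊕ Fin 2 → ℚ := Sum.elim
    (fun i => y ^ (2 * m + 1 - l i) / ((2 * m + 1 - l i).factorial : ℚ))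
    (fun s => 1 / ((2 * m + 3 + (s : ℕ)).factorial : ℚ))
  let z : Fin m ⊕ Fin 2 → ℕ := Sum.elim (fun i => 2 * m + 1 - l i) (fun s => 2 * m + 3 + (s : ℕ))
  have h1 : (Matrix.of (Sum.elim
      (fun (i : Fin m) (j : Fin m ⊕ Fin 2) => ((2 * m + 1 - l i).descFactorial (dg j) : ℚ) /
        ((2 * m + 1 - l i).factorial : ℚ) * y ^ (2 * m + 1 - l i))
      (fun (s : Fin 2) (j : Fin m ⊕ Fin 2) => ((2 * m + 3 + (s : ℕ)).descFactorial (dg j) : ℚ) /
        ((2 * m + 3 + (s : ℕ)).factorial : ℚ)))) =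
      Matrix.of fun r c => v r * (Matrix.of fun r c : Fin m ⊕ Fin 2 =>
        ((z r).descFactorial (dg c) : ℚ)) r c := by
    ext r c
    rcases r with i | s
    · simp only [Matrix.of_apply, Sum.elim_inl, v, z]
      ring
    · simp only [Matrix.of_apply, Sum.elim_inr, v, z]
      ring
  rw [h1, Matrix.det_mul_column, V_dg, Fintype.prod_sum_type, V_succ, V_succ]
  have c1 : ∀ i : Fin m, (finSumFinEquiv.symm (i.castSucc.castSucc : Fin (m + 2)) :
      Fin m ⊕ Fin 2) = Sum.inl i := fun i => finSumFinEquiv_symm_apply_castAdd i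
  have c2 : (finSumFinEquiv.symm ((Fin.last m).castSucc : Fin (m + 2)) :
      Fin m ⊕ Fin 2) = Sum.inr 0 := finSumFinEquiv_symm_apply_natAdd (m := m) (0 : Fin 2)
  have c3 : (finSumFinEquiv.symm (Fin.last (m + 1) : Fin (m + 2)) :
      Fin m ⊕ Fin 2) = Sum.inr 1 := finSumFinEquiv_symm_apply_natAdd (m := m) (1 : Fin 2)
  rw [Fin.prod_univ_castSucc (n := m)]
  simp only [c1, c2, c3, v, z, Sum.elim_inl, Sum.elim_inr, Fin.prod_univ_two, Fin.val_zero,
    Fin.val_one, add_zero]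
  have d1 : ∀ i, ((2 * m + 1 - l i : ℕ) : ℚ) = ((2 * m + 1 : ℕ) : ℚ) - (l i : ℚ) := by
    intro i
    have := hl i
    rw [Nat.cast_sub (by omega)]
  simp only [d1]
  rw [V_neg]
  have q1 : ∏ i : Fin m, (((2 * m + 3 : ℕ) : ℚ) - (((2 * m + 1 : ℕ) : ℚ) - (l i : ℚ))) =
      ∏ i : Fin m, ((l i : ℚ) + 2) := by
    refine prod_congr rfl fun i _ => ?_
    push_cast
    ring
  have q2 : ∏ i : Fin m, (((2 * m + 3 + 1 : ℕ) : ℚ) - (((2 * m + 1 : ℕ) : ℚ) - (l i : ℚ))) =
      ∏ i : Fin m, ((l i : ℚ) + 3) := by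
    refine prod_congr rfl fun i _ => ?_
    push_cast
    ring
  have q3 : (((2 * m + 3 + 1 : ℕ) : ℚ) - ((2 * m + 3 : ℕ) : ℚ)) = 1 := by
    push_cast
    ring
  rw [q1, q2, q3, prod_mul_distrib, mul_one]
  have e4 : 2 * m + 3 + 1 = 2 * m + 4 := by ring
  rw [e4]
  have := fq (2 * m + 3)
  have := fq (2 * m + 4)
  field_simp

end Pool.Agent.P8H42.Trunc
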