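import Pool.Agent.P8H42.Trunc.G

/-!
The bordered determinant.
-/

set_option autoImplicit false
set_option linter.unusedSectionVars false

namespace Pool.Agent.P8H42.Trunc

open Finset Polynomial

/-- the generating sum -/
noncomputable def HH (m : ℕ) (y : ℚ) : ℚ :=
  ∑ b ∈ MM m, wt (lb b) * ∏ a : Fin m, ((1 - y) ^ (lb b a) * y ^ (2 * m + 1 - lb b a))

/-- the bordered matrix -/
def DD (m : ℕ) (y : ℚ) : Matrix (Fin m ⊕ Fin 2) (Fin m ⊕ Fin 2) ℚ :=
  Matrix.of (Sum.elim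
    (fun (i : Fin m) (j : Fin m ⊕ Fin 2) =>
      (1 - y) ^ (i : ℕ) * y ^ (dg j) / ((2 * m + 1 - i - dg j).factorial : ℚ))
    (fun (s : Fin 2) (j : Fin m ⊕ Fin 2) => ((2 * m + 3 + (s : ℕ)).descFactorial (dg j) : ℚ) /
      ((2 * m + 3 + (s : ℕ)).factorial : ℚ)))

theorem wt_perm {m : ℕ} (l : Fin m → ℕ) (σ : Equiv.Perm (Fin m)) : wt (l ∘ σ) = wt l := by
  unfold wt
  have h1 : V (fun a => ((l ∘ σ) a : ℚ)) = ((Equiv.Perm.sign σ : ℤ) : ℚ) *
      V (fun a => (l a : ℚ)) := by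
    rw [← V_perm]
    rfl
  rw [h1, mul_pow]
  have h2 : ((Equiv.Perm.sign σ : ℤ) : ℚ) ^ 2 = 1 := by
    rcases Int.units_eq_one_or (Equiv.Perm.sign σ) with h | h <;> simp [h]
  rw [h2, one_mul]
  congr 1
  exact Equiv.prod_comp σ (fun a => (((l a : ℚ) + 2) * ((l a : ℚ) + 3) /
    (((l a).factorial : ℚ) * ((2 * m + 1 - l a).factorial : ℚ))))

theorem wt_zero {m : ℕ} (l : Fin m → ℕ) (h : ¬ Function.Injective l) : wt l = 0 := by
  unfold wt
  simp only [Function.Injective, not_forall] at h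
  obtain ⟨a, a', h1, h2⟩ := h
  rw [V_eq_zero _ a a' h2 (by rw [h1])]
  ring

theorem dg_lt {m : ℕ} (j : Fin m ⊕ Fin 2) : dg j < m + 2 := (finSumFinEquiv j).2

theorem HH_det (m : ℕ) (y : ℚ) :
    sg m * HH m y = ((2 * m + 3).factorial : ℚ) * ((2 * m + 4).factorial : ℚ) * (DD m y).det := by
  classical
  have h1 := gcb (m := m) (range (2 * m + 2))
    (fun i k => (k.descFactorial i : ℚ) / (k.factorial : ℚ) * (1 - y) ^ k)
    (fun k j => ((2 * m + 1 - k).descFactorial (dg j) : ℚ) /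
        ((2 * m + 1 - k).factorial : ℚ) * y ^ (2 * m + 1 - k))
    (fun (s : Fin 2) (j : Fin m ⊕ Fin 2) => ((2 * m + 3 + (s : ℕ)).descFactorial (dg j) : ℚ) /
        ((2 * m + 3 + (s : ℕ)).factorial : ℚ))
  have h2 : (Matrix.of (Sum.elim (fun (i : Fin m) (j : Fin m ⊕ Fin 2) => ∑ k ∈ range (2 * m + 2),
      ((k.descFactorial i : ℚ) / (k.factorial : ℚ) * (1 - y) ^ k) *
      (((2 * m + 1 - k).descFactorial (dg j) : ℚ) /
        ((2 * m + 1 - k).factorial : ℚ) * y ^ (2 * m + 1 - k)))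
      (fun (s : Fin 2) (j : Fin m ⊕ Fin 2) => ((2 * m + 3 + (s : ℕ)).descFactorial (dg j) : ℚ) /
        ((2 * m + 3 + (s : ℕ)).factorial : ℚ)))) = DD m y := by
    ext r j
    rcases r with i | s
    · simp only [DD, Matrix.of_apply, Sum.elim_inl]
      have h3 := i.2
      have h4 := dg_lt j
      exact bs_eq i (dg j) (2 * m + 1) (1 - y) y (by ring) (by omega)
    · rfl
  rw [h2] at h1
  let F : (Fin m → ℕ) → ℚ := fun l => wt l * ∏ a : Fin m, ((1 - y) ^ (l a) * y ^ (2 * m + 1 - l a))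
  have h3 := symm_sum (m := m) F
    (fun l σ => by
      simp only [F, wt_perm]
      congr 1
      exact Equiv.prod_comp σ (fun a => ((1 - y) ^ (l a) * y ^ (2 * m + 1 - l a))))
    (fun l hl => by simp only [F, wt_zero l hl, zero_mul])
  have h4 : ∀ l ∈ Fintype.piFinset (fun _ : Fin m => range (2 * m + 2)),
      (Matrix.of fun i j : Fin m => ((l j).descFactorial i : ℚ) / ((l j).factorial : ℚ) *
      (1 - y) ^ (l j)).det * (Matrix.of (Sum.elim
      (fun (i : Fin m) (j : Fin m ⊕ Fin 2) => ((2 * m + 1 - l i).descFactorial (dg j) : ℚ) /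
        ((2 * m + 1 - l i).factorial : ℚ) * y ^ (2 * m + 1 - l i))
      (fun (s : Fin 2) (j : Fin m ⊕ Fin 2) => ((2 * m + 3 + (s : ℕ)).descFactorial (dg j) : ℚ) /
        ((2 * m + 3 + (s : ℕ)).factorial : ℚ)))).det =
      (1 / (((2 * m + 3).factorial : ℚ) * ((2 * m + 4).factorial : ℚ))) * sg m * F l := by
    intro l hl
    rw [Fintype.mem_piFinset] at hl
    rw [det_A, det_B l (fun a => mem_range.1 (hl a)) y]
    have p1 : ∏ a : Fin m, ((l a).factorial : ℚ) ≠ 0 := prod_ne_zero_iff.2 fun a _ => fq _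
    have p2 : ∏ a : Fin m, ((2 * m + 1 - l a).factorial : ℚ) ≠ 0 :=
      prod_ne_zero_iff.2 fun a _ => fq _
    simp only [F, wt, prod_div_distrib, prod_mul_distrib]
    have := fq (2 * m + 3)
    have := fq (2 * m + 4)
    field_simp
  rw [sum_congr rfl h4, ← mul_sum, h3] at h1
  have h5 : ∑ b ∈ MM m, F (lb b) = HH m y := rfl
  rw [h5] at h1
  have := fq (2 * m + 3)
  have := fq (2 * m + 4)
  have := fq m
  field_simp at h1
  linear_combination h1

/-- the vectors that kill the upper rows -/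
def ev (m : ℕ) (y : ℚ) (j t : ℕ) : ℚ :=
  (-1) ^ j * ((m + 1).choose j : ℚ) * ((2 * m + 1 - j).factorial : ℚ) * y ^ (m + 1 - j) *
    (j : ℚ) ^ t

theorem diff_zero (m : ℕ) (p : ℚ[X]) (hp : p.natDegree < m + 1) :
    ∑ j ∈ range (m + 2), (-1 : ℚ) ^ j * ((m + 1).choose j : ℚ) * p.eval (j : ℚ) = 0 := by
  have h1 := congrFun (Polynomial.fwdDiff_iter_eq_zero_of_degree_lt hp) (0 : ℚ)
  rw [fwdDiff_iter_eq_sum_shift] at h1
  simp only [zero_add, Pi.zero_apply, nsmul_eq_mul, mul_one, zsmul_eq_mul] at h1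
  have h2 : ∑ j ∈ range (m + 2), (-1 : ℚ) ^ j * ((m + 1).choose j : ℚ) * p.eval (j : ℚ) =
      (-1) ^ (m + 1) * ∑ j ∈ range (m + 1 + 1), (((-1 : ℤ) ^ (m + 1 - j) *
        ((m + 1).choose j : ℤ) : ℤ) : ℚ) * p.eval (j : ℚ) := by
    rw [mul_sum]
    refine sum_congr rfl fun j hj => ?_
    have hj' : j ≤ m + 1 := by
      have := mem_range.1 hj
      omega
    have h3 : (-1 : ℚ) ^ (m + 1) * (-1) ^ (m + 1 - j) = (-1) ^ j := by
      rw [← pow_add]
      have : m + 1 + (m + 1 - j) = j + 2 * (m + 1 - j) := by omega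
      rw [this, pow_add, pow_mul]
      norm_num
    push_cast
    rw [← h3]
    ring
  rw [h2, h1, mul_zero]

theorem kill (m : ℕ) (y : ℚ) (i t : ℕ) (h : i + t ≤ m) (hi : i < m) :
    ∑ j ∈ range (m + 2), ((1 - y) ^ i * y ^ j / ((2 * m + 1 - i - j).factorial : ℚ)) *
      ev m y j t = 0 := by
  have h1 := diff_zero m (((descPochhammer ℚ i).comp (C ((2 * m + 1 : ℕ) : ℚ) - X)) * X ^ t) (by
    refine lt_of_le_of_lt natDegree_mul_le ?_
    rw [natDegree_X_pow]
    have h2 : ((descPochhammer ℚ i).comp (C ((2 * m + 1 : ℕ) : ℚ) - X)).natDegree ≤ i := by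
      refine natDegree_comp_le.trans ?_
      rw [descPochhammer_natDegree]
      have : (C ((2 * m + 1 : ℕ) : ℚ) - X : ℚ[X]).natDegree ≤ 1 := by
        refine (natDegree_sub_le _ _).trans ?_
        rw [natDegree_C, natDegree_X]
        exact le_of_eq rfl
      calc i * _ ≤ i * 1 := Nat.mul_le_mul_left _ this
        _ = i := mul_one i
    omega)
  have h2 : ∑ j ∈ range (m + 2), ((1 - y) ^ i * y ^ j / ((2 * m + 1 - i - j).factorial : ℚ)) *
      ev m y j t = (1 - y) ^ i * y ^ (m + 1) * ∑ j ∈ range (m + 2),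
      (-1 : ℚ) ^ j * ((m + 1).choose j : ℚ) *
      (((descPochhammer ℚ i).comp (C ((2 * m + 1 : ℕ) : ℚ) - X)) * X ^ t).eval (j : ℚ) := by
    rw [mul_sum]
    refine sum_congr rfl fun j hj => ?_
    have hj' : j ≤ m + 1 := by
      have := mem_range.1 hj
      omega
    have h3 : ((descPochhammer ℚ i).comp (C ((2 * m + 1 : ℕ) : ℚ) - X)).eval (j : ℚ) =
        ((2 * m + 1 - j).descFactorial i : ℚ) := by
      rw [eval_comp, eval_sub, eval_C, eval_X, ← Nat.cast_sub (by omega),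
        descPochhammer_eval_eq_descFactorial]
    have h4 : ((2 * m + 1 - j).factorial : ℚ) =
        ((2 * m + 1 - i - j).factorial : ℚ) * ((2 * m + 1 - j).descFactorial i : ℚ) := by
      rw [← Nat.factorial_mul_descFactorial (show i ≤ 2 * m + 1 - j by omega)]
      have : 2 * m + 1 - j - i = 2 * m + 1 - i - j := by omega
      rw [this]
      push_cast
      ring
    have h5 : y ^ (m + 1) = y ^ j * y ^ (m + 1 - j) := by
      rw [← pow_add]
      congr 1
      omega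
    rw [eval_mul, h3, eval_pow, eval_X, ev, h4, h5]
    have := fq (2 * m + 1 - i - j)
    field_simp
  rw [h2, h1, mul_zero]

/-- the basic terms -/
def rho (m : ℕ) (y : ℚ) (j : ℕ) : ℚ :=
  (-1) ^ j * ((m + 1).choose j : ℚ) * y ^ (m + 1 - j) /
    (((2 * m + 2 : ℚ) - j) * ((2 * m + 3 : ℚ) - j) * ((2 * m + 4 : ℚ) - j))

/-- moments -/
def Smom (m : ℕ) (y : ℚ) (t : ℕ) : ℚ := ∑ j ∈ range (m + 2), rho m y j * (j : ℚ) ^ t

theorem ev_rho (m : ℕ) (y : ℚ) (j t : ℕ) (hj : j < m + 2) :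
    ((2 * m + 4).descFactorial j : ℚ) / ((2 * m + 4).factorial : ℚ) * ev m y j t =
      rho m y j * (j : ℚ) ^ t := by
  have h1 : ((2 * m + 4).factorial : ℚ) = ((2 * m + 4 - j).factorial : ℚ) *
      ((2 * m + 4).descFactorial j : ℚ) := by
    rw [← Nat.factorial_mul_descFactorial (show j ≤ 2 * m + 4 by omega)]
    push_cast
    ring
  have h2 : 2 * m + 4 - j = (2 * m + 1 - j) + 1 + 1 + 1 := by omega
  have h3 : ((2 * m + 4 - j).factorial : ℚ) = ((2 * m + 4 : ℚ) - j) * (((2 * m + 3 : ℚ) - j) *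
      (((2 * m + 2 : ℚ) - j) * ((2 * m + 1 - j).factorial : ℚ))) := by
    rw [h2, Nat.factorial_succ, Nat.factorial_succ, Nat.factorial_succ]
    push_cast
    rw [Nat.cast_sub (by omega)]
    push_cast
    ring
  have h4 : ((2 * m + 4).descFactorial j : ℚ) ≠ 0 := by
    rw [Nat.cast_ne_zero, Ne, Nat.descFactorial_eq_zero_iff_lt]
    omega
  have hj' : (j : ℚ) ≤ m + 1 := by exact_mod_cast (by omega : j ≤ m + 1)
  have hm : (0 : ℚ) ≤ m := Nat.cast_nonneg m
  have h5 : ((2 * m + 4 : ℚ) - j) ≠ 0 := by linarith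
  have h6 : ((2 * m + 3 : ℚ) - j) ≠ 0 := by linarith
  have h7 : ((2 * m + 2 : ℚ) - j) ≠ 0 := by linarith
  rw [h1, h3, ev, rho]
  have := fq (2 * m + 1 - j)
  field_simp

theorem ev_rho' (m : ℕ) (y : ℚ) (j t : ℕ) (hj : j < m + 2) :
    ((2 * m + 3).descFactorial j : ℚ) / ((2 * m + 3).factorial : ℚ) * ev m y j t =
      (2 * m + 4) * (rho m y j * (j : ℚ) ^ t) - rho m y j * (j : ℚ) ^ (t + 1) := by
  have h1 : ((2 * m + 3).factorial : ℚ) = ((2 * m + 3 - j).factorial : ℚ) *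
      ((2 * m + 3).descFactorial j : ℚ) := by
    rw [← Nat.factorial_mul_descFactorial (show j ≤ 2 * m + 3 by omega)]
    push_cast
    ring
  have h2 : 2 * m + 3 - j = (2 * m + 1 - j) + 1 + 1 := by omega
  have h3 : ((2 * m + 3 - j).factorial : ℚ) = (((2 * m + 3 : ℚ) - j) *
      (((2 * m + 2 : ℚ) - j) * ((2 * m + 1 - j).factorial : ℚ))) := by
    rw [h2, Nat.factorial_succ, Nat.factorial_succ]
    push_cast
    rw [Nat.cast_sub (by omega)]
    push_cast
    ring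
  have h4 : ((2 * m + 3).descFactorial j : ℚ) ≠ 0 := by
    rw [Nat.cast_ne_zero, Ne, Nat.descFactorial_eq_zero_iff_lt]
    omega
  have hj' : (j : ℚ) ≤ m + 1 := by exact_mod_cast (by omega : j ≤ m + 1)
  have hm : (0 : ℚ) ≤ m := Nat.cast_nonneg m
  have h5 : ((2 * m + 4 : ℚ) - j) ≠ 0 := by linarith
  have h6 : ((2 * m + 3 : ℚ) - j) ≠ 0 := by linarith
  have h7 : ((2 * m + 2 : ℚ) - j) ≠ 0 := by linarith
  rw [h1, h3, ev, rho]
  have := fq (2 * m + 1 - j)
  field_simp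
  ring

end Pool.Agent.P8H42.Trunc
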