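import Pool.Agent.P8H42.Trunc.H

/-!
The bordered determinant, evaluated.
-/

set_option autoImplicit false
set_option linter.unusedSectionVars false

namespace Pool.Agent.P8H42.Trunc

open Finset

theorem sum_split (m : ℕ) (f : ℕ → ℚ) :
    (∑ j : Fin m, f j) + ∑ s : Fin 2, f (m + s) = ∑ j ∈ range (m + 2), f j := by
  rw [Fin.sum_univ_two, sum_range_succ, sum_range_succ, ← Fin.sum_univ_eq_sum_range]
  simp only [Fin.val_zero, Fin.val_one, add_zero]
  ring

/-- top left block -/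
def D11 (m : ℕ) (y : ℚ) : Matrix (Fin m) (Fin m) ℚ :=
  Matrix.of fun i j => (1 - y) ^ (i : ℕ) * y ^ (j : ℕ) / ((2 * m + 1 - i - j).factorial : ℚ)

/-- top right block -/
def D12 (m : ℕ) (y : ℚ) : Matrix (Fin m) (Fin 2) ℚ :=
  Matrix.of fun i s => (1 - y) ^ (i : ℕ) * y ^ (m + (s : ℕ)) /
    ((2 * m + 1 - i - (m + (s : ℕ))).factorial : ℚ)

/-- bottom left block -/
def D21 (m : ℕ) : Matrix (Fin 2) (Fin m) ℚ :=
  Matrix.of fun s j => ((2 * m + 3 + (s : ℕ)).descFactorial (j : ℕ) : ℚ) /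
      ((2 * m + 3 + (s : ℕ)).factorial : ℚ)

/-- bottom right block -/
def D22 (m : ℕ) : Matrix (Fin 2) (Fin 2) ℚ :=
  Matrix.of fun s t => ((2 * m + 3 + (s : ℕ)).descFactorial (m + (t : ℕ)) : ℚ) /
      ((2 * m + 3 + (s : ℕ)).factorial : ℚ)

theorem DD_blocks (m : ℕ) (y : ℚ) :
    DD m y = Matrix.fromBlocks (D11 m y) (D12 m y) (D21 m) (D22 m) := by
  ext r c
  rcases r with i | s <;> rcases c with j | t
  · simp only [DD, Matrix.of_apply, Sum.elim_inl, dg_inl, Matrix.fromBlocks_apply₁₁, D11]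
  · simp only [DD, Matrix.of_apply, Sum.elim_inl, dg_inr, Matrix.fromBlocks_apply₁₂, D12]
  · simp only [DD, Matrix.of_apply, Sum.elim_inr, dg_inl, Matrix.fromBlocks_apply₂₁, D21]
  · simp only [DD, Matrix.of_apply, Sum.elim_inr, dg_inr, Matrix.fromBlocks_apply₂₂, D22]

/-- top part of the vectors -/
def E12 (m : ℕ) (y : ℚ) : Matrix (Fin m) (Fin 2) ℚ := Matrix.of fun j t => ev m y j t

/-- bottom part of the vectors -/
def E22 (m : ℕ) (y : ℚ) : Matrix (Fin 2) (Fin 2) ℚ := Matrix.of fun s t => ev m y (m + (s : ℕ)) t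

theorem top_zero (m : ℕ) (y : ℚ) : D11 m y * E12 m y + D12 m y * E22 m y = 0 := by
  ext i t
  simp only [Matrix.add_apply, Matrix.mul_apply, D11, D12, E12, E22, Matrix.of_apply,
    Matrix.zero_apply]
  have hi := i.2
  have ht := t.2
  have := kill m y i t (by omega) hi
  rw [← this, ← sum_split m (fun j => ((1 - y) ^ (i : ℕ) * y ^ j /
    ((2 * m + 1 - i - j).factorial : ℚ)) * ev m y j t)]

theorem det_E22 (m : ℕ) (y : ℚ) :
    (E22 m y).det = -((m + 1 : ℚ) * ((m + 1).factorial : ℚ) * (m.factorial : ℚ) * y) := by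
  rw [Matrix.det_fin_two]
  simp only [E22, Matrix.of_apply, ev, Fin.val_zero, Fin.val_one, add_zero, pow_zero, mul_one,
    pow_one, Nat.sub_self, Nat.choose_self, Nat.cast_one]
  have e1 : 2 * m + 1 - m = m + 1 := by omega
  have e2 : 2 * m + 1 - (m + 1) = m := by omega
  have e3 : m + 1 - m = 1 := by omega
  have e4 : (m + 1).choose m = m + 1 := Nat.choose_succ_self_right m
  rw [e1, e2, e3, e4, pow_one]
  have h : (-1 : ℚ) ^ m * (-1) ^ m = 1 := by
    rw [← mul_pow]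
    norm_num
  push_cast
  rw [pow_succ]
  linear_combination (-((m : ℚ) + 1) * ((m + 1).factorial : ℚ) * (m.factorial : ℚ) * y) * h

/-- the reduced corner -/
def SS (m : ℕ) (y : ℚ) : Matrix (Fin 2) (Fin 2) ℚ := D21 m * E12 m y + D22 m * E22 m y

theorem SS_entry (m : ℕ) (y : ℚ) (s t : Fin 2) : SS m y s t =
    ∑ j ∈ range (m + 2), ((2 * m + 3 + (s : ℕ)).descFactorial j : ℚ) /
      ((2 * m + 3 + (s : ℕ)).factorial : ℚ) * ev m y j t := by
  simp only [SS, Matrix.add_apply, Matrix.mul_apply, D21, D22, E12, E22, Matrix.of_apply]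
  rw [← sum_split m (fun j => ((2 * m + 3 + (s : ℕ)).descFactorial j : ℚ) /
      ((2 * m + 3 + (s : ℕ)).factorial : ℚ) * ev m y j t)]

theorem det_SS (m : ℕ) (y : ℚ) :
    (SS m y).det = Smom m y 0 * Smom m y 2 - Smom m y 1 ^ 2 := by
  have h0 : ∀ t : Fin 2, SS m y 0 t = (2 * m + 4) * Smom m y t - Smom m y (t + 1) := by
    intro t
    rw [SS_entry, Smom, Smom, mul_sum, ← sum_sub_distrib]
    refine sum_congr rfl fun j hj => ?_
    rw [Fin.val_zero, add_zero, ev_rho' m y j t (mem_range.1 hj)]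
  have h1 : ∀ t : Fin 2, SS m y 1 t = Smom m y t := by
    intro t
    rw [SS_entry, Smom]
    refine sum_congr rfl fun j hj => ?_
    exact ev_rho m y j t (mem_range.1 hj)
  rw [Matrix.det_fin_two, h0, h0, h1, h1]
  simp only [Fin.val_zero, Fin.val_one]
  ring

theorem det_D11 (m : ℕ) (y : ℚ) :
    (D11 m y).det = (∏ i : Fin m, (1 - y) ^ (i : ℕ)) * (∏ i : Fin m, y ^ (i : ℕ)) *
      (sg m * ((∏ i : Fin m, ((i : ℕ).factorial : ℚ)) /
        ∏ i : Fin m, ((2 * m + 1 - i : ℕ).factorial : ℚ))) := by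
  have h1 : D11 m y = Matrix.of fun i j : Fin m => ((1 - y) ^ (i : ℕ) /
      ((2 * m + 1 - i : ℕ).factorial : ℚ)) * (Matrix.of fun i j : Fin m => y ^ (j : ℕ) *
      (Matrix.of fun i j : Fin m => (Polynomial.eval (((2 * m + 1 : ℕ) : ℚ) - ((i : ℕ) : ℚ))
        (descPochhammer ℚ j))) i j) i j := by
    ext i j
    have hi := i.2
    have hj := j.2
    simp only [D11, Matrix.of_apply]
    rw [← Nat.cast_sub (by omega), descPochhammer_eval_eq_descFactorial]
    have h2 : ((2 * m + 1 - i : ℕ).factorial : ℚ) = ((2 * m + 1 - i - j : ℕ).factorial : ℚ) *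
        ((2 * m + 1 - i : ℕ).descFactorial j : ℚ) := by
      rw [← Nat.factorial_mul_descFactorial (show (j : ℕ) ≤ 2 * m + 1 - i by omega)]
      push_cast
      ring
    have h3 : ((2 * m + 1 - i : ℕ).descFactorial j : ℚ) ≠ 0 := by
      rw [Nat.cast_ne_zero, Ne, Nat.descFactorial_eq_zero_iff_lt]
      omega
    rw [h2]
    have := fq (2 * m + 1 - i - j)
    field_simp
  rw [h1, Matrix.det_mul_column, Matrix.det_mul_row, ← V_det (fun i : Fin m =>
    ((2 * m + 1 : ℕ) : ℚ) - ((i : ℕ) : ℚ)), V_neg (fun i : Fin m => ((i : ℕ) : ℚ)), V_id,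
    prod_div_distrib]
  have p2 : ∏ a : Fin m, ((2 * m + 1 - a : ℕ).factorial : ℚ) ≠ 0 :=
    prod_ne_zero_iff.2 fun a _ => fq _
  field_simp

/-- **Evaluation of the generating sum.** -/
theorem HH_eval (m : ℕ) (y : ℚ) :
    HH m y * ((m + 1 : ℚ) * ((m + 1).factorial : ℚ) * (m.factorial : ℚ) * y) =
      -(((2 * m + 3).factorial : ℚ) * ((2 * m + 4).factorial : ℚ) *
      ((∏ i : Fin m, (1 - y) ^ (i : ℕ)) * (∏ i : Fin m, y ^ (i : ℕ)) *
      ((∏ i : Fin m, ((i : ℕ).factorial : ℚ)) /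
        ∏ i : Fin m, ((2 * m + 1 - i : ℕ).factorial : ℚ))) *
      (Smom m y 0 * Smom m y 2 - Smom m y 1 ^ 2)) := by
  have h1 : (DD m y).det * (E22 m y).det = (D11 m y).det * (SS m y).det := by
    rw [DD_blocks]
    have h2 : (E22 m y).det = (Matrix.fromBlocks (1 : Matrix (Fin m) (Fin m) ℚ) (E12 m y) 0
        (E22 m y)).det := by
      rw [Matrix.det_fromBlocks_zero₂₁, Matrix.det_one, one_mul]
    rw [h2, ← Matrix.det_mul, Matrix.fromBlocks_multiply, top_zero, Matrix.det_fromBlocks_zero₁₂]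
    simp only [Matrix.mul_one, Matrix.mul_zero, add_zero]
    rfl
  rw [det_E22, det_SS, det_D11] at h1
  have h3 := HH_det m y
  have h4 := sg_sq m
  have h5 : HH m y = sg m * (((2 * m + 3).factorial : ℚ) * ((2 * m + 4).factorial : ℚ) *
      (DD m y).det) := by
    rw [← h3, ← mul_assoc, h4, one_mul]
  rw [h5]
  linear_combination (-(sg m * ((2 * m + 3).factorial : ℚ) * ((2 * m + 4).factorial : ℚ))) * h1 -
    (((2 * m + 3).factorial : ℚ) * ((2 * m + 4).factorial : ℚ) *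
      ((∏ i : Fin m, (1 - y) ^ (i : ℕ)) * (∏ i : Fin m, y ^ (i : ℕ)) *
      ((∏ i : Fin m, ((i : ℕ).factorial : ℚ)) /
        ∏ i : Fin m, ((2 * m + 1 - i : ℕ).factorial : ℚ))) *
      (Smom m y 0 * Smom m y 2 - Smom m y 1 ^ 2)) * h4

end Pool.Agent.P8H42.Trunc
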