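import Mathlib

/-!
Antiderivatives of rational polynomials and the integral over `[0, 1]`.
-/

set_option autoImplicit false
set_option linter.unusedSectionVars false

namespace Pool.Agent.P8H42.Trunc

open Finset Polynomial

/-- the antiderivative with value `0` at `0` -/
noncomputable def anti (p : ℚ[X]) : ℚ[X] := p.sum fun i a => C (a / ((i : ℚ) + 1)) * X ^ (i + 1)

theorem der_anti (p : ℚ[X]) : derivative (anti p) = p := by
  unfold anti Polynomial.sum
  rw [derivative_sum]
  conv_rhs => rw [p.as_sum_support_C_mul_X_pow]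
  refine sum_congr rfl fun i _ => ?_
  rw [derivative_C_mul_X_pow, Nat.add_sub_cancel]
  congr 2
  push_cast
  have : ((i : ℚ) + 1) ≠ 0 := by positivity
  field_simp

theorem anti_zero (p : ℚ[X]) : (anti p).eval 0 = 0 := by
  unfold anti Polynomial.sum
  rw [eval_finsetSum]
  refine sum_eq_zero fun i _ => ?_
  simp

theorem anti_unique {p P : ℚ[X]} (h1 : derivative P = p) (h2 : P.eval 0 = 0) : anti p = P := by
  have h3 : derivative (anti p - P) = 0 := by
    rw [derivative_sub, der_anti, h1, sub_self]
  have h4 := derivative_eq_zero.1 h3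
  rw [natDegree_eq_zero] at h4
  obtain ⟨c, hc⟩ := h4
  have h5 : (anti p - P).eval 0 = 0 := by
    rw [eval_sub, anti_zero, h2, sub_self]
  rw [← hc, eval_C] at h5
  rw [h5, C_0] at hc
  exact (sub_eq_zero.1 hc.symm)

/-- the integral over `[0, 1]` -/
noncomputable def Lam (p : ℚ[X]) : ℚ := (anti p).eval 1

theorem Lam_add (p q : ℚ[X]) : Lam (p + q) = Lam p + Lam q := by
  have : anti (p + q) = anti p + anti q :=
    anti_unique (by rw [derivative_add, der_anti, der_anti])
      (by rw [eval_add, anti_zero, anti_zero, add_zero])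
  rw [Lam, this, eval_add]
  rfl

theorem Lam_smul (c : ℚ) (p : ℚ[X]) : Lam (C c * p) = c * Lam p := by
  have : anti (C c * p) = C c * anti p :=
    anti_unique (by rw [derivative_C_mul, der_anti])
      (by rw [eval_mul, anti_zero, mul_zero])
  rw [Lam, this, eval_mul, eval_C]
  rfl

theorem Lam_zero : Lam 0 = 0 := by
  have := Lam_smul 0 0
  simpa using this

theorem Lam_sum {ι : Type*} (s : Finset ι) (f : ι → ℚ[X]) :
    Lam (∑ i ∈ s, f i) = ∑ i ∈ s, Lam (f i) := by
  classical
  induction s using Finset.induction_on with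
  | empty => rw [sum_empty, sum_empty, Lam_zero]
  | insert a s ha ih => rw [sum_insert ha, sum_insert ha, Lam_add, ih]

theorem Lam_der (P : ℚ[X]) : Lam (derivative P) = P.eval 1 - P.eval 0 := by
  have : anti (derivative P) = P - C (P.eval 0) :=
    anti_unique (by rw [derivative_sub, derivative_C, sub_zero])
      (by rw [eval_sub, eval_C, sub_self])
  rw [Lam, this, eval_sub, eval_C]

/-- **The beta integral.** -/
theorem Lam_beta (b a : ℕ) : Lam (X ^ a * (1 - X) ^ b) =
    (a.factorial : ℚ) * (b.factorial : ℚ) / ((a + b + 1).factorial : ℚ) := by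
  induction b generalizing a with
  | zero =>
    have h1 : anti (X ^ a * (1 - X) ^ 0) = C (1 / ((a : ℚ) + 1)) * X ^ (a + 1) := by
      refine anti_unique ?_ (by simp)
      rw [derivative_C_mul_X_pow, Nat.add_sub_cancel, pow_zero, mul_one]
      have : ((a : ℚ) + 1) ≠ 0 := by positivity
      push_cast
      rw [one_div, inv_mul_cancel₀ this, C_1, one_mul]
    rw [Lam, h1, add_zero, Nat.factorial_succ]
    have h2 : ((a : ℚ) + 1) ≠ 0 := by positivity
    have h3 : (a.factorial : ℚ) ≠ 0 := by exact_mod_cast Nat.factorial_ne_zero a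
    simp only [eval_mul, eval_C, eval_pow, eval_X, one_pow, mul_one, Nat.factorial_zero]
    push_cast
    field_simp
  | succ b ih =>
    have h1 := Lam_der (X ^ (a + 1) * (1 - X) ^ (b + 1))
    have h2 : derivative ((X : ℚ[X]) ^ (a + 1) * (1 - X) ^ (b + 1)) =
        C ((a : ℚ) + 1) * (X ^ a * (1 - X) ^ (b + 1)) +
        C (-((b : ℚ) + 1)) * (X ^ (a + 1) * (1 - X) ^ b) := by
      rw [derivative_mul, derivative_X_pow, derivative_pow]
      simp only [derivative_sub, derivative_one, derivative_X, Nat.add_sub_cancel]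
      push_cast
      simp only [map_neg, map_add, map_one]
      ring
    rw [h2, Lam_add, Lam_smul, Lam_smul, ih] at h1
    simp only [eval_mul, eval_pow, eval_X, eval_sub, eval_one, sub_self, one_pow, sub_zero,
      zero_pow (Nat.succ_ne_zero _), mul_zero, zero_mul] at h1
    have h3 : ((a : ℚ) + 1) ≠ 0 := by positivity
    have h4 : (((a + 1 + b + 1).factorial : ℕ) : ℚ) ≠ 0 := by
      exact_mod_cast Nat.factorial_ne_zero _
    have h5 : a + (b + 1) + 1 = a + 1 + b + 1 := by ring
    rw [h5, eq_div_iff h4]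
    rw [Nat.factorial_succ b, ]
    rw [Nat.factorial_succ a] at h1
    push_cast at h1 ⊢
    field_simp at h1
    have h6 : ((a : ℚ) + 1) * (Lam (X ^ a * (1 - X) ^ (b + 1)) * ((a + 1 + b + 1).factorial : ℚ)) =
        ((a : ℚ) + 1) * ((a.factorial : ℚ) * (((b : ℚ) + 1) * (b.factorial : ℚ))) := by
      linear_combination h1
    exact mul_left_cancel₀ h3 h6

end Pool.Agent.P8H42.Trunc
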