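import Pool.Agent.P8H42.Trunc.J

/-!
The one variable integral.
-/

set_option autoImplicit false
set_option linter.unusedSectionVars false

namespace Pool.Agent.P8H42.Trunc

open Finset Polynomial

/-- the weight function -/
noncomputable def phi (m : ℕ) : ℚ[X] := (X * (1 - X)) ^ m

/-- its antiderivative -/
noncomputable def Psi (m : ℕ) : ℚ[X] := anti (phi m)

/-- the next power -/
noncomputable def Ep (m : ℕ) : ℚ[X] := (X * (1 - X)) ^ (m + 1)

theorem Ep_eval (m : ℕ) (t : ℚ) : (Ep m).eval t = t * (1 - t) * (phi m).eval t := by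
  simp only [Ep, phi, pow_succ, eval_mul, eval_pow, eval_X, eval_sub, eval_one]
  ring

theorem der_Ep (m : ℕ) : derivative (Ep m) = C ((m : ℚ) + 1) * (1 - C 2 * X) * phi m := by
  have h : derivative (X * (1 - X) : ℚ[X]) = 1 - C 2 * X := by
    rw [derivative_mul, derivative_sub, derivative_one, derivative_X]
    have : (C 2 : ℚ[X]) = 2 := rfl
    rw [this]
    ring
  rw [Ep, derivative_pow, Nat.add_sub_cancel, h, phi]
  push_cast
  ring

theorem der_Psi (m : ℕ) : derivative (Psi m) = phi m := der_anti _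

/-- the coefficients -/
def cj (m j : ℕ) : ℚ := (-1) ^ (m + 1 + j) * ((m + 1).choose j : ℚ)

/-- third derivative -/
noncomputable def P3 (m : ℕ) : ℚ[X] := ∑ j ∈ range (m + 2), C (cj m j) * X ^ (2 * m + 1 - j)

/-- second derivative -/
noncomputable def P2 (m : ℕ) : ℚ[X] := ∑ j ∈ range (m + 2),
  C (cj m j / ((2 * m + 2 : ℚ) - j)) * X ^ (2 * m + 2 - j)

/-- first derivative -/
noncomputable def P1 (m : ℕ) : ℚ[X] := ∑ j ∈ range (m + 2),
  C (cj m j / (((2 * m + 2 : ℚ) - j) * ((2 * m + 3 : ℚ) - j))) * X ^ (2 * m + 3 - j)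

/-- the function -/
noncomputable def P0 (m : ℕ) : ℚ[X] := ∑ j ∈ range (m + 2),
  C (cj m j / (((2 * m + 2 : ℚ) - j) * ((2 * m + 3 : ℚ) - j) * ((2 * m + 4 : ℚ) - j))) *
    X ^ (2 * m + 4 - j)

theorem ks {m j : ℕ} (hj : j ∈ range (m + 2)) : ((2 * m + 2 : ℚ) - j) ≠ 0 ∧
    ((2 * m + 3 : ℚ) - j) ≠ 0 ∧ ((2 * m + 4 : ℚ) - j) ≠ 0 := by
  have hj' : (j : ℚ) ≤ m + 1 := by
    have := mem_range.1 hj
    exact_mod_cast (by omega : j ≤ m + 1)
  have hm : (0 : ℚ) ≤ m := Nat.cast_nonneg m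
  refine ⟨?_, ?_, ?_⟩ <;> linarith

theorem der_P2 (m : ℕ) : derivative (P2 m) = P3 m := by
  rw [P2, derivative_sum, P3]
  refine sum_congr rfl fun j hj => ?_
  obtain ⟨h1, h2, h3⟩ := ks hj
  have hj' : j < m + 2 := mem_range.1 hj
  have h4 : 2 * m + 2 - j - 1 = 2 * m + 1 - j := by omega
  rw [derivative_C_mul_X_pow, h4, Nat.cast_sub (by omega)]
  congr 2
  push_cast
  exact div_mul_cancel₀ _ h1

theorem der_P1 (m : ℕ) : derivative (P1 m) = P2 m := by
  rw [P1, derivative_sum, P2]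
  refine sum_congr rfl fun j hj => ?_
  obtain ⟨h1, h2, h3⟩ := ks hj
  have hj' : j < m + 2 := mem_range.1 hj
  have h4 : 2 * m + 3 - j - 1 = 2 * m + 2 - j := by omega
  rw [derivative_C_mul_X_pow, h4, Nat.cast_sub (by omega)]
  congr 2
  push_cast
  field_simp

theorem der_P0 (m : ℕ) : derivative (P0 m) = P1 m := by
  rw [P0, derivative_sum, P1]
  refine sum_congr rfl fun j hj => ?_
  obtain ⟨h1, h2, h3⟩ := ks hj
  have hj' : j < m + 2 := mem_range.1 hj
  have h4 : 2 * m + 4 - j - 1 = 2 * m + 3 - j := by omega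
  rw [derivative_C_mul_X_pow, h4, Nat.cast_sub (by omega)]
  congr 2
  push_cast
  field_simp

theorem P3_eq (m : ℕ) : P3 m = (1 - X) * phi m := by
  have h1 : (1 - X : ℚ[X]) * phi m = X ^ m * (1 + -X) ^ (m + 1) := by
    rw [phi, mul_pow, pow_succ]
    ring
  rw [h1, add_pow, mul_sum, P3]
  refine sum_congr rfl fun j hj => ?_
  have hj' : j < m + 2 := mem_range.1 hj
  have h2 : 2 * m + 1 - j = m + (m + 1 - j) := by omega
  have h3 : (-1 : ℚ) ^ (m + 1 + j) = (-1) ^ (m + 1 - j) := by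
    have : m + 1 + j = (m + 1 - j) + 2 * j := by omega
    rw [this, pow_add, pow_mul]
    norm_num
  rw [h2, cj, h3, neg_pow, pow_add, one_pow]
  simp only [map_mul, map_pow, map_neg, map_one, map_natCast]
  ring

theorem P2_zero (m : ℕ) : (P2 m).eval 0 = 0 := by
  rw [P2, eval_finsetSum]
  refine sum_eq_zero fun j hj => ?_
  have hj' : j < m + 2 := mem_range.1 hj
  rw [eval_mul, eval_pow, eval_X, zero_pow (by omega), mul_zero]

theorem P1_zero (m : ℕ) : (P1 m).eval 0 = 0 := by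
  rw [P1, eval_finsetSum]
  refine sum_eq_zero fun j hj => ?_
  have hj' : j < m + 2 := mem_range.1 hj
  rw [eval_mul, eval_pow, eval_X, zero_pow (by omega), mul_zero]

theorem P0_zero (m : ℕ) : (P0 m).eval 0 = 0 := by
  rw [P0, eval_finsetSum]
  refine sum_eq_zero fun j hj => ?_
  have hj' : j < m + 2 := mem_range.1 hj
  rw [eval_mul, eval_pow, eval_X, zero_pow (by omega), mul_zero]

theorem Psi_zero (m : ℕ) : (Psi m).eval 0 = 0 := anti_zero _

theorem Ep_zero (m : ℕ) : (Ep m).eval 0 = 0 := by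
  rw [Ep_eval]
  ring

theorem Ep_one (m : ℕ) : (Ep m).eval 1 = 0 := by
  rw [Ep_eval]
  ring

theorem P2_eq (m : ℕ) : P2 m = C (1 / 2) * Psi m + C (1 / (2 * ((m : ℚ) + 1))) * Ep m := by
  rw [← anti_unique (der_P2 m) (P2_zero m)]
  refine anti_unique ?_ ?_
  · rw [derivative_add, derivative_C_mul, derivative_C_mul, der_Psi, der_Ep, P3_eq]
    refine Polynomial.funext fun t => ?_
    simp only [eval_add, eval_mul, eval_C, eval_sub, eval_one, eval_X]
    have : ((m : ℚ) + 1) ≠ 0 := by positivity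
    field_simp
    ring
  · rw [eval_add, eval_mul, eval_mul, Psi_zero, Ep_zero]
    ring

theorem P1_eq (m : ℕ) : P1 m =
    (C (1 / 2) * X - C (((m : ℚ) + 1) / (4 * m + 6))) * Psi m +
    (C (1 / (2 * ((m : ℚ) + 1))) * X + C (1 / (4 * (m : ℚ) + 6)) * (1 - C 2 * X)) * Ep m := by
  rw [← anti_unique (der_P1 m) (P1_zero m)]
  refine anti_unique ?_ ?_
  · simp only [derivative_add, derivative_mul, derivative_sub, derivative_C, derivative_X,
      derivative_one, der_Psi, der_Ep, P2_eq]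
    refine Polynomial.funext fun t => ?_
    simp only [eval_add, eval_mul, eval_C, eval_sub, eval_one, eval_X, eval_zero, Ep_eval]
    have : ((m : ℚ) + 1) ≠ 0 := by positivity
    have : ((4 * (m : ℚ)) + 6) ≠ 0 := by positivity
    field_simp
    ring
  · rw [eval_add, eval_mul, eval_mul, Psi_zero, Ep_zero]
    ring

theorem P0_eq (m : ℕ) : P0 m =
    (C (((m : ℚ) + 1) / (8 * (2 * m + 3))) - C (((m : ℚ) + 1) / (4 * m + 6)) * X +
      C (1 / 4) * X ^ 2) * Psi m +
    (C (-1 / (8 * (2 * (m : ℚ) + 3))) + C (((m : ℚ) + 3) / (4 * (m + 2) * (2 * m + 3))) * X +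
      C (1 / (4 * ((m : ℚ) + 1) * (m + 2) * (2 * m + 3))) * X ^ 2) * Ep m := by
  rw [← anti_unique (der_P0 m) (P0_zero m)]
  refine anti_unique ?_ ?_
  · simp only [derivative_add, derivative_mul, derivative_sub, derivative_C, derivative_X,
      derivative_X_pow, der_Psi, der_Ep, P1_eq]
    refine Polynomial.funext fun t => ?_
    simp only [eval_add, eval_mul, eval_C, eval_sub, eval_one, eval_X, eval_zero, eval_pow,
      Ep_eval, Nat.cast_ofNat]
    have : ((m : ℚ) + 1) ≠ 0 := by positivity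
    have : ((m : ℚ) + 2) ≠ 0 := by positivity
    have : ((2 * (m : ℚ)) + 3) ≠ 0 := by positivity
    have : ((4 * (m : ℚ)) + 6) ≠ 0 := by positivity
    field_simp
    ring
  · rw [eval_add, eval_mul, eval_mul, Psi_zero, Ep_zero]
    ring

/-- the quadratic expression -/
noncomputable def KK (m : ℕ) : ℚ[X] := X * (P0 m * P2 m) + P0 m * P1 m - X * (P1 m) ^ 2

/-- primitive -/
noncomputable def Prim (m : ℕ) : ℚ[X] :=
  C (-((m : ℚ) + 1) / (16 * (2 * m + 3) ^ 2)) * (1 - C 2 * X) * ((Psi m) ^ 2 * Ep m) +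
  (C (1 / (8 * (2 * (m : ℚ) + 3) ^ 2)) +
    C (((m : ℚ) + 1) / (8 * (m + 2) * (2 * m + 3) ^ 2)) * (X * (1 - X))) *
    (Psi m * (Ep m) ^ 2) +
  C ((3 * (m : ℚ) ^ 2 + 8 * m + 6) / (16 * (6 * m + 7) * (m + 1) * (m + 2) * (2 * m + 3) ^ 2)) *
    (1 - C 2 * X) * (Ep m) ^ 3

theorem phi_KK (m : ℕ) : phi m * KK m = derivative (Prim m) +
    C (-(3 * (3 * (m : ℚ) + 4) * (3 * m + 5)) / (16 * (6 * m + 7) * (m + 2) * (2 * m + 3) ^ 2)) *
      (phi m * (Ep m) ^ 2) := by
  unfold KK Prim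
  simp only [derivative_add, derivative_mul, derivative_sub, derivative_C, derivative_X,
      derivative_one, derivative_pow, der_Psi, der_Ep, P0_eq, P1_eq, P2_eq]
  refine Polynomial.funext fun t => ?_
  simp only [eval_add, eval_mul, eval_C, eval_sub, eval_one, eval_X, eval_zero, eval_pow,
      Ep_eval, Nat.cast_ofNat, Nat.add_one_sub_one, pow_one]
  have : ((m : ℚ) + 1) ≠ 0 := by positivity
  have : ((m : ℚ) + 2) ≠ 0 := by positivity
  have : ((2 * (m : ℚ)) + 3) ≠ 0 := by positivity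
  have : ((4 * (m : ℚ)) + 6) ≠ 0 := by positivity
  have : ((6 * (m : ℚ)) + 7) ≠ 0 := by positivity
  generalize (phi m).eval t = f
  generalize (Psi m).eval t = g
  field_simp
  ring

end Pool.Agent.P8H42.Trunc
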