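import Pool.Agent.P8H42.Trunc.I
import Pool.Agent.P8H42.Trunc.K

/-!
Assembly of the product formula.
-/

set_option autoImplicit false
set_option linter.unusedSectionVars false

namespace Pool.Agent.P8H42.Trunc

open Finset Polynomial

theorem Lam_phi_KK (m : ℕ) : Lam (phi m * KK m) =
    -(3 * (3 * (m : ℚ) + 4) * (3 * m + 5)) / (16 * (6 * m + 7) * (m + 2) * (2 * m + 3) ^ 2) *
      (((3 * m + 2).factorial : ℚ) * ((3 * m + 2).factorial : ℚ) /
        ((6 * m + 5).factorial : ℚ)) := by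
  have h1 : phi m * (Ep m) ^ 2 = X ^ (3 * m + 2) * (1 - X) ^ (3 * m + 2) := by
    rw [phi, Ep, ← pow_mul, ← pow_add, ← mul_pow]
    congr 1
    ring
  rw [phi_KK, Lam_add, Lam_smul, Lam_der, h1, Lam_beta]
  have h2 : (Prim m).eval 1 = 0 := by
    simp only [Prim, eval_add, eval_mul, eval_pow, Ep_one]
    ring
  have h3 : (Prim m).eval 0 = 0 := by
    simp only [Prim, eval_add, eval_mul, eval_pow, Ep_zero]
    ring
  have h4 : 3 * m + 2 + (3 * m + 2) + 1 = 6 * m + 5 := by ring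
  rw [h2, h3, h4]
  ring

theorem KK_mom (m : ℕ) (y : ℚ) : y * (KK m).eval y =
    y ^ (2 * m + 6) * (Smom m y 0 * Smom m y 2 - Smom m y 1 ^ 2) := by
  have hp : ∀ j ∈ range (m + 2), y ^ (2 * m + 4 - j) = y ^ (m + 3) * y ^ (m + 1 - j) := by
    intro j hj
    have := mem_range.1 hj
    rw [← pow_add]
    congr 1
    omega
  have hc : ∀ j : ℕ, cj m j = (-1) ^ (m + 1) * ((-1) ^ j * ((m + 1).choose j : ℚ)) := by
    intro j
    rw [cj, pow_add]
    ring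
  have e0 : (P0 m).eval y = (-1) ^ (m + 1) * y ^ (m + 3) * Smom m y 0 := by
    rw [P0, eval_finsetSum, Smom, mul_sum]
    refine sum_congr rfl fun j hj => ?_
    obtain ⟨h1, h2, h3⟩ := ks hj
    rw [eval_mul, eval_C, eval_pow, eval_X, hp j hj, hc, rho]
    ring
  have e1 : y * (P1 m).eval y = (-1) ^ (m + 1) * y ^ (m + 3) *
      ((2 * m + 4) * Smom m y 0 - Smom m y 1) := by
    rw [P1, eval_finsetSum, Smom, Smom, mul_sum, mul_sum, ← sum_sub_distrib, mul_sum]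
    refine sum_congr rfl fun j hj => ?_
    obtain ⟨h1, h2, h3⟩ := ks hj
    have h4 : y * y ^ (2 * m + 3 - j) = y ^ (m + 3) * y ^ (m + 1 - j) := by
      rw [← hp j hj, ← pow_succ']
      congr 1
      have := mem_range.1 hj
      omega
    rw [eval_mul, eval_C, eval_pow, eval_X, hc, rho]
    have h5 : y * ((-1) ^ (m + 1) * ((-1) ^ j * ((m + 1).choose j : ℚ)) /
        (((2 * m + 2 : ℚ) - j) * ((2 * m + 3 : ℚ) - j)) * y ^ (2 * m + 3 - j)) =
        (-1) ^ (m + 1) * ((-1) ^ j * ((m + 1).choose j : ℚ)) /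
        (((2 * m + 2 : ℚ) - j) * ((2 * m + 3 : ℚ) - j)) * (y * y ^ (2 * m + 3 - j)) := by ring
    rw [h5, h4]
    generalize y ^ (m + 1 - j) = q
    generalize (2 * m + 2 : ℚ) - j = k1 at *
    generalize (2 * m + 3 : ℚ) - j = k2 at *
    obtain ⟨k3, hk3⟩ : ∃ k3, k3 = (2 * m + 4 : ℚ) - j := ⟨_, rfl⟩
    rw [← hk3] at h3 ⊢
    have h6 : ((2 : ℚ) * m + 4) = k3 + j := by rw [hk3]; ring
    rw [h6]
    field_simp
    ring
  have e2 : y ^ 2 * (P2 m).eval y = (-1) ^ (m + 1) * y ^ (m + 3) *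
      ((2 * m + 4) * (2 * m + 3) * Smom m y 0 - (4 * m + 7) * Smom m y 1 + Smom m y 2) := by
    rw [P2, eval_finsetSum, Smom, Smom, Smom, mul_sum, mul_sum, mul_sum, ← sum_sub_distrib,
      ← sum_add_distrib, mul_sum]
    refine sum_congr rfl fun j hj => ?_
    obtain ⟨h1, h2, h3⟩ := ks hj
    have h4 : y ^ 2 * y ^ (2 * m + 2 - j) = y ^ (m + 3) * y ^ (m + 1 - j) := by
      rw [← hp j hj, ← pow_add]
      congr 1
      have := mem_range.1 hj
      omega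
    rw [eval_mul, eval_C, eval_pow, eval_X, hc, rho]
    have h5 : y ^ 2 * ((-1) ^ (m + 1) * ((-1) ^ j * ((m + 1).choose j : ℚ)) /
        ((2 * m + 2 : ℚ) - j) * y ^ (2 * m + 2 - j)) =
        (-1) ^ (m + 1) * ((-1) ^ j * ((m + 1).choose j : ℚ)) /
        ((2 * m + 2 : ℚ) - j) * (y ^ 2 * y ^ (2 * m + 2 - j)) := by ring
    rw [h5, h4]
    generalize y ^ (m + 1 - j) = q
    generalize (2 * m + 2 : ℚ) - j = k1 at *
    obtain ⟨k2, hk2⟩ : ∃ k2, k2 = (2 * m + 3 : ℚ) - j := ⟨_, rfl⟩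
    obtain ⟨k3, hk3⟩ : ∃ k3, k3 = (2 * m + 4 : ℚ) - j := ⟨_, rfl⟩
    rw [← hk2] at h2 ⊢
    rw [← hk3] at h3 ⊢
    have h6 : (2 * (m : ℚ) + 4) * (2 * m + 3) = k2 * k3 + (4 * m + 7) * j - j ^ 2 := by
      rw [hk2, hk3]; ring
    have h7 : k1 * k2 * k3 ≠ 0 := mul_ne_zero (mul_ne_zero h1 h2) h3
    rw [h6]
    field_simp
    ring
  have h : y * (KK m).eval y = (P0 m).eval y * (y ^ 2 * (P2 m).eval y) +
      (P0 m).eval y * (y * (P1 m).eval y) - (y * (P1 m).eval y) ^ 2 := by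
    simp only [KK, eval_sub, eval_add, eval_mul, eval_X, eval_pow]
    ring
  have hs : ((-1 : ℚ) ^ (m + 1) * y ^ (m + 3)) * ((-1 : ℚ) ^ (m + 1) * y ^ (m + 3)) =
      y ^ (2 * m + 6) := by
    have h1 : (-1 : ℚ) ^ (m + 1) * (-1) ^ (m + 1) = 1 := by
      rw [← mul_pow]
      norm_num
    have h2 : y ^ (2 * m + 6) = y ^ (m + 3) * y ^ (m + 3) := by
      rw [← pow_add]
      congr 1
      ring
    rw [h2]
    linear_combination (y ^ (m + 3) * y ^ (m + 3)) * h1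
  rw [h, e0, e1, e2, ← hs]
  ring

/-- the polynomial whose integral is the count -/
noncomputable def GG (m : ℕ) : ℚ[X] :=
  ∑ b ∈ MM m, C (wt (lb b)) * (X ^ (∑ t, cb b t) * (1 - X) ^ (∑ a, b a))

theorem e_Lam (m : ℕ) : (e adj (Dn (m + 3)) : ℚ) =
    2 * ((m ^ 2 + 6 * m + 7).factorial : ℚ) /
      ((2 * m + 2).factorial * (2 * m + 3).factorial * (2 * m + 4).factorial : ℚ) *
      Lam (GG m) := by
  rw [e_Dn, GG, Lam_sum, mul_sum]
  push_cast
  refine sum_congr rfl fun b hb => ?_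
  have h1 := card_YD_cb b hb
  rw [term_eq b hb, Lam_smul, Lam_beta, h1]
  have := fq (m ^ 2 + 6 * m + 7)
  have h2 : m ^ 2 + 6 * m + 6 + 1 = m ^ 2 + 6 * m + 7 := by ring
  rw [h2]
  have := fq (2 * m + 2)
  have := fq (2 * m + 3)
  have := fq (2 * m + 4)
  field_simp

theorem Cs_eq (m : ℕ) : 2 * (∑ a : Fin m, (a : ℕ)) + m = m ^ 2 := by
  rw [Fin.sum_univ_eq_sum_range (fun i => i) m]
  have h := Finset.sum_range_id_mul_two m
  rcases m with _ | m
  · simp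
  · rw [Nat.add_sub_cancel] at h
    nlinarith [h]

theorem GG_eval (m : ℕ) (y : ℚ) :
    (GG m).eval y * ((1 - y) ^ (∑ a : Fin m, (a : ℕ)) * y ^ (m ^ 2)) =
      (1 - y) ^ m * y ^ (4 * m + 6 + ∑ a : Fin m, (a : ℕ)) * HH m y := by
  rw [GG, eval_finsetSum, HH, sum_mul, mul_sum]
  refine sum_congr rfl fun b hb => ?_
  obtain ⟨hb1, hb2⟩ := mem_MM.1 hb
  have h1 := card_YD_cb b hb
  have h2 : (∑ a, b a) + ∑ a : Fin m, (a : ℕ) = (∑ a, lb b a) + m := by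
    have : ∀ a ∈ (univ : Finset (Fin m)), b a + (a : ℕ) = lb b a + 1 := by
      intro a _
      have := hb1 a
      simp only [lb]
      omega
    rw [← sum_add_distrib, sum_congr rfl this, sum_add_distrib, sum_const, card_univ,
      Fintype.card_fin, smul_eq_mul, mul_one]
  have h3 : (∑ a, (2 * m + 1 - lb b a)) + ∑ a, lb b a = m * (2 * m + 1) := by
    rw [← sum_add_distrib]
    have : ∀ a ∈ (univ : Finset (Fin m)), 2 * m + 1 - lb b a + lb b a = 2 * m + 1 := by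
      intro a _
      have := lb_lt hb a
      omega
    rw [sum_congr rfl this, sum_const, card_univ, Fintype.card_fin, smul_eq_mul]
  have h4 := Cs_eq m
  rw [prod_mul_distrib, prod_pow_eq_pow_sum, prod_pow_eq_pow_sum]
  simp only [eval_mul, eval_C, eval_pow, eval_X, eval_sub, eval_one]
  have h5 : (1 - y) ^ (∑ a, b a) * (1 - y) ^ (∑ a : Fin m, (a : ℕ)) =
      (1 - y) ^ m * (1 - y) ^ (∑ a, lb b a) := by
    rw [← pow_add, ← pow_add, h2]
    congr 1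
    ring
  have h6 : y ^ (∑ t, cb b t) * y ^ (m ^ 2) =
      y ^ (4 * m + 6 + ∑ a : Fin m, (a : ℕ)) * y ^ (∑ a, (2 * m + 1 - lb b a)) := by
    rw [← pow_add, ← pow_add]
    congr 1
    nlinarith [h1, h2, h3, h4]
  linear_combination (wt (lb b) * (y ^ (∑ t, cb b t) * y ^ (m ^ 2))) * h5 +
    (wt (lb b) * ((1 - y) ^ m * (1 - y) ^ (∑ a, lb b a))) * h6

/-- ratio of factorials -/
def QQ (m : ℕ) : ℚ := (∏ i : Fin m, ((i : ℕ).factorial : ℚ)) /
        ∏ i : Fin m, ((2 * m + 1 - i : ℕ).factorial : ℚ)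

theorem GG_eq (m : ℕ) :
    C ((m + 1 : ℚ) * ((m + 1).factorial : ℚ) * (m.factorial : ℚ)) * GG m =
      C (-(((2 * m + 3).factorial : ℚ) * ((2 * m + 4).factorial : ℚ) * QQ m)) *
        (phi m * KK m) := by
  have hne : ((1 - X) ^ (∑ a : Fin m, (a : ℕ)) * X ^ (m ^ 2 + 2 * m + 7) : ℚ[X]) ≠ 0 := by
    refine mul_ne_zero (pow_ne_zero _ ?_) (pow_ne_zero _ X_ne_zero)
    intro h
    have := congrArg (eval 0) h
    simp at this
  refine mul_right_cancel₀ hne (Polynomial.funext fun y => ?_)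
  simp only [eval_mul, eval_C, eval_pow, eval_X, eval_sub, eval_one]
  have h1 := GG_eval m y
  have h2 := HH_eval m y
  have h3 := KK_mom m y
  have h4 := Cs_eq m
  rw [prod_pow_eq_pow_sum, prod_pow_eq_pow_sum] at h2
  have h5 : (phi m).eval y = y ^ m * (1 - y) ^ m := by
    simp only [phi, eval_pow, eval_mul, eval_X, eval_sub, eval_one, mul_pow]
  have h6 : y ^ (m ^ 2 + 2 * m + 7) = y ^ (m ^ 2) * (y ^ (2 * m + 6) * y) := by
    rw [← pow_succ, ← pow_add]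
    congr 1
  have h7 : y ^ m * y ^ (m ^ 2 + 2 * m + 7) =
      y ^ (4 * m + 6 + ∑ a : Fin m, (a : ℕ)) * y ^ (∑ a : Fin m, (a : ℕ)) * y := by
    rw [← pow_add, ← pow_add, ← pow_succ]
    congr 1
    rw [← h4]
    ring
  have e1 : (m + 1 : ℚ) * ((m + 1).factorial : ℚ) * (m.factorial : ℚ) * (GG m).eval y *
      ((1 - y) ^ (∑ a : Fin m, (a : ℕ)) * y ^ (m ^ 2 + 2 * m + 7)) =
      (1 - y) ^ m * y ^ (4 * m + 6 + ∑ a : Fin m, (a : ℕ)) * y ^ (2 * m + 6) *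
      (HH m y * ((m + 1 : ℚ) * ((m + 1).factorial : ℚ) * (m.factorial : ℚ) * y)) := by
    rw [h6]
    linear_combination ((m + 1 : ℚ) * ((m + 1).factorial : ℚ) * (m.factorial : ℚ) *
      (y ^ (2 * m + 6) * y)) * h1
  rw [e1, h2, h5]
  have e2 : -(((2 * m + 3).factorial : ℚ) * ((2 * m + 4).factorial : ℚ) * QQ m) *
      (y ^ m * (1 - y) ^ m * (KK m).eval y) *
      ((1 - y) ^ (∑ a : Fin m, (a : ℕ)) * y ^ (m ^ 2 + 2 * m + 7)) =
      -(((2 * m + 3).factorial : ℚ) * ((2 * m + 4).factorial : ℚ) * QQ m) *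
      ((1 - y) ^ m * (1 - y) ^ (∑ a : Fin m, (a : ℕ)) *
      (y ^ (4 * m + 6 + ∑ a : Fin m, (a : ℕ)) * y ^ (∑ a : Fin m, (a : ℕ)))) *
      (y * (KK m).eval y) := by
    linear_combination (-(((2 * m + 3).factorial : ℚ) * ((2 * m + 4).factorial : ℚ) * QQ m) *
      ((1 - y) ^ m * (KK m).eval y * (1 - y) ^ (∑ a : Fin m, (a : ℕ)))) * h7
  rw [e2, h3]
  unfold QQ
  ring

theorem e_final (m : ℕ) : (e adj (Dn (m + 3)) : ℚ) =
    2 * ((m ^ 2 + 6 * m + 7).factorial : ℚ) * QQ m /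
      (((2 * m + 2).factorial : ℚ) * ((m + 1 : ℚ) * ((m + 1).factorial : ℚ) *
        (m.factorial : ℚ))) *
      ((3 * (3 * (m : ℚ) + 4) * (3 * m + 5)) / (16 * (6 * m + 7) * (m + 2) * (2 * m + 3) ^ 2) *
      (((3 * m + 2).factorial : ℚ) * ((3 * m + 2).factorial : ℚ) /
        ((6 * m + 5).factorial : ℚ))) := by
  have h1 := congrArg Lam (GG_eq m)
  rw [Lam_smul, Lam_smul, Lam_phi_KK] at h1
  rw [e_Lam]
  have f1 := fq (2 * m + 2)
  have f2 := fq (2 * m + 3)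
  have f3 := fq (2 * m + 4)
  have f4 := fq (m + 1)
  have f5 := fq m
  have f6 : (m + 1 : ℚ) ≠ 0 := by positivity
  have h2 : Lam (GG m) = -(((2 * m + 3).factorial : ℚ) * ((2 * m + 4).factorial : ℚ) * QQ m) *
      (-(3 * (3 * (m : ℚ) + 4) * (3 * m + 5)) / (16 * (6 * m + 7) * (m + 2) * (2 * m + 3) ^ 2) *
      (((3 * m + 2).factorial : ℚ) * ((3 * m + 2).factorial : ℚ) /
        ((6 * m + 5).factorial : ℚ))) /
      ((m + 1 : ℚ) * ((m + 1).factorial : ℚ) * (m.factorial : ℚ)) := by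
    rw [eq_div_iff (mul_ne_zero (mul_ne_zero f6 f4) f5), ← h1]
    ring
  rw [h2]
  have f7 := fq (6 * m + 5)
  have f8 : (6 * (m : ℚ) + 7) ≠ 0 := by positivity
  have f9 : ((m : ℚ) + 2) ≠ 0 := by positivity
  have f10 : (2 * (m : ℚ) + 3) ≠ 0 := by positivity
  field_simp

/-- `F m = 0! 1! ... (m - 1)!` -/
def FF (m : ℕ) : ℕ := ∏ i ∈ range m, i.factorial

theorem FF_succ (m : ℕ) : FF (m + 1) = FF m * m.factorial := by
  rw [FF, prod_range_succ]
  rfl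

theorem QQ_eq (m : ℕ) : QQ m = (FF m : ℚ) * (FF (m + 2) : ℚ) / (FF (2 * m + 2) : ℚ) := by
  have h1 : ∏ i : Fin m, ((i : ℕ).factorial : ℚ) = (FF m : ℚ) := by
    rw [FF, Fin.prod_univ_eq_prod_range (fun i => (i.factorial : ℚ)) m]
    push_cast
    rfl
  have h2 : ∀ k ≤ m, (∏ i ∈ range k, ((2 * m + 1 - i : ℕ).factorial : ℚ)) *
      (FF (2 * m + 2 - k) : ℚ) = (FF (2 * m + 2) : ℚ) := by
    intro k
    induction k with
    | zero => intro _; simp
    | succ k ih =>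
      intro hk
      rw [← ih (by omega), prod_range_succ]
      have h3 : 2 * m + 2 - k = (2 * m + 2 - (k + 1)) + 1 := by omega
      have h4 : 2 * m + 2 - (k + 1) = 2 * m + 1 - k := by omega
      rw [h3, FF_succ, h4]
      push_cast
      ring
  have h3 := h2 m le_rfl
  have h4 : 2 * m + 2 - m = m + 2 := by omega
  rw [h4] at h3
  have h5 : ∏ i : Fin m, ((2 * m + 1 - i : ℕ).factorial : ℚ) =
      ∏ i ∈ range m, ((2 * m + 1 - i : ℕ).factorial : ℚ) :=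
    Fin.prod_univ_eq_prod_range (fun i => ((2 * m + 1 - i : ℕ).factorial : ℚ)) m
  have h6 : ∀ k, (FF k : ℚ) ≠ 0 := by
    intro k
    rw [Nat.cast_ne_zero, FF]
    exact prod_ne_zero_iff.2 fun i _ => Nat.factorial_ne_zero i
  have h7 : ∏ i ∈ range m, ((2 * m + 1 - i : ℕ).factorial : ℚ) ≠ 0 :=
    prod_ne_zero_iff.2 fun a _ => fq _
  rw [QQ, h1, h5, ← h3]
  have := h6 (m + 2)
  field_simp

theorem FF_ne (k : ℕ) : (FF k : ℚ) ≠ 0 := by
  rw [Nat.cast_ne_zero, FF]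
  exact prod_ne_zero_iff.2 fun i _ => Nat.factorial_ne_zero i

/-- **The product formula.** -/
theorem formula (m : ℕ) : (e adj (Dn (m + 3)) : ℚ) =
    6 * (((m + 3) ^ 2 - 2).factorial : ℚ) * ((3 * (m + 3) - 4).factorial : ℚ) ^ 2 *
      (FF (m + 3 - 2) : ℚ) ^ 2 /
      (((6 * (m + 3) - 8).factorial : ℚ) * ((2 * (m + 3) - 2).factorial : ℚ) *
        ((m + 3 - 2).factorial : ℚ) ^ 2 * (FF (2 * (m + 3) - 4) : ℚ)) := by
  rw [e_final, QQ_eq]
  have i1 : (m + 3) ^ 2 - 2 = m ^ 2 + 6 * m + 7 := by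
    have : (m + 3) ^ 2 = m ^ 2 + 6 * m + 9 := by ring
    omega
  have i2 : 3 * (m + 3) - 4 = 3 * m + 2 + 1 + 1 + 1 := by omega
  have i3 : m + 3 - 2 = m + 1 := by omega
  have i4 : 6 * (m + 3) - 8 = 6 * m + 5 + 1 + 1 + 1 + 1 + 1 := by omega
  have i5 : 2 * (m + 3) - 2 = 2 * m + 2 + 1 + 1 := by omega
  have i6 : 2 * (m + 3) - 4 = 2 * m + 2 := by omega
  rw [i1, i2, i3, i4, i5, i6, FF_succ (m + 1), FF_succ m]
  simp only [Nat.factorial_succ (3 * m + 2 + 1 + 1), Nat.factorial_succ (3 * m + 2 + 1),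
    Nat.factorial_succ (3 * m + 2), Nat.factorial_succ (6 * m + 5 + 1 + 1 + 1 + 1),
    Nat.factorial_succ (6 * m + 5 + 1 + 1 + 1), Nat.factorial_succ (6 * m + 5 + 1 + 1),
    Nat.factorial_succ (6 * m + 5 + 1), Nat.factorial_succ (6 * m + 5),
    Nat.factorial_succ (2 * m + 2 + 1), Nat.factorial_succ (2 * m + 2), Nat.factorial_succ m]
  push_cast
  have f1 := fq (2 * m + 2)
  have f4 := fq (m + 1)
  have f5 := fq m
  have f7 := fq (6 * m + 5)
  have g1 := FF_ne m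
  have g2 := FF_ne (2 * m + 2)
  have a1 : (m + 1 : ℚ) ≠ 0 := by positivity
  have a2 : (6 * (m : ℚ) + 7) ≠ 0 := by positivity
  have a3 : ((m : ℚ) + 2) ≠ 0 := by positivity
  have a4 : (2 * (m : ℚ) + 3) ≠ 0 := by positivity
  have a5 : (6 * (m : ℚ) + 5 + 1 + 1 + 1 + 1 + 1) ≠ 0 := by positivity
  have a6 : (6 * (m : ℚ) + 5 + 1 + 1 + 1 + 1) ≠ 0 := by positivity
  have a7 : (6 * (m : ℚ) + 5 + 1 + 1 + 1) ≠ 0 := by positivity
  have a8 : (6 * (m : ℚ) + 5 + 1 + 1) ≠ 0 := by positivity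
  have a9 : (6 * (m : ℚ) + 5 + 1) ≠ 0 := by positivity
  have a10 : (2 * (m : ℚ) + 2 + 1 + 1) ≠ 0 := by positivity
  have a11 : (2 * (m : ℚ) + 2 + 1) ≠ 0 := by positivity
  field_simp
  ring

end Pool.Agent.P8H42.Trunc
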